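import Mathlib

/-! Exponential sums and the hyperbola identity. -/

open Finset Real

namespace Pool.Agent.P.MP_d5c55f_an

noncomputable def ee (t : ℝ) : ℂ := Complex.exp (Complex.I * ((2 * π * t : ℝ) : ℂ))

lemma ee_add (s t : ℝ) : ee (s + t) = ee s * ee t := by
  unfold ee; rw [← Complex.exp_add]; congr 1; push_cast; ring

lemma ee_zero : ee 0 = 1 := by simp [ee]

lemma norm_ee (t : ℝ) : ‖ee t‖ = 1 := by
  unfold ee; rw [mul_comm]; exact Complex.norm_exp_ofReal_mul_I _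

lemma ee_int (z : ℤ) : ee z = 1 := by
  unfold ee
  rw [← Complex.exp_int_mul_two_pi_mul_I z]; congr 1; push_cast; ring

lemma norm_ee_sub_one_le (t : ℝ) : ‖ee t - 1‖ ≤ 2 * π * |t| := by
  have h := @Real.norm_exp_I_mul_ofReal_sub_one_le (2 * π * t)
  unfold ee
  refine h.trans (le_of_eq ?_)
  rw [Real.norm_eq_abs, abs_mul, abs_of_pos (by positivity : (0 : ℝ) < 2 * π)]

lemma le_norm_ee_sub_one {t : ℝ} (ht : |t| ≤ 1 / 2) : 4 * |t| ≤ ‖ee t - 1‖ := by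
  unfold ee
  rw [Complex.norm_exp_I_mul_ofReal_sub_one, Real.norm_eq_abs, abs_mul, abs_two]
  have h1 : |2 * π * t / 2| ≤ π / 2 := by
    rw [show 2 * π * t / 2 = π * t by ring, abs_mul, abs_of_pos pi_pos]
    nlinarith [pi_pos]
  have h2 := Real.mul_abs_le_abs_sin h1
  have h3 : 2 / π * |2 * π * t / 2| = 2 * |t| := by
    rw [show 2 * π * t / 2 = π * t by ring, abs_mul, abs_of_pos pi_pos]
    field_simp
  linarith

/-- geometric sum -/
noncomputable def G (t : ℝ) (x : ℕ) : ℂ := ∑ b ∈ Icc 1 x, ee (b * t)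

lemma G_succ (t : ℝ) (x : ℕ) : G t (x + 1) = G t x + ee (((x + 1 : ℕ) : ℝ) * t) := by
  unfold G; rw [Finset.sum_Icc_succ_top (by omega)]

lemma norm_G_le (t : ℝ) (x : ℕ) : ‖G t x‖ ≤ x := by
  unfold G
  refine (norm_sum_le _ _).trans (le_of_eq ?_)
  simp [norm_ee]

lemma G_zero (x : ℕ) : G 0 x = x := by simp [G, ee_zero]

lemma G_add_int (t : ℝ) (z : ℤ) (x : ℕ) : G (z + t) x = G t x := by
  unfold G
  refine Finset.sum_congr rfl fun b _ => ?_
  rw [mul_add, ee_add, show (b : ℝ) * z = ((b * z : ℤ) : ℝ) by push_cast; ring, ee_int, one_mul]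

lemma G_mul (t : ℝ) (x : ℕ) : G t x * (ee t - 1) = ee (((x + 1 : ℕ) : ℝ) * t) - ee t := by
  induction x with
  | zero => simp [G]
  | succ x ih =>
    rw [G_succ, add_mul, ih, show (((x + 1 + 1 : ℕ) : ℝ) * t) = ((x + 1 : ℕ) : ℝ) * t + t by
      push_cast; ring, ee_add]
    ring

lemma norm_G_mul_le {t : ℝ} (ht : |t| ≤ 1 / 2) (x : ℕ) : ‖G t x‖ * |t| ≤ 1 / 2 := by
  have h1 : ‖G t x‖ * ‖ee t - 1‖ ≤ 2 := by
    rw [← norm_mul, G_mul]
    refine (norm_sub_le _ _).trans (le_of_eq ?_)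
    rw [norm_ee, norm_ee]; norm_num
  have h2 := le_norm_ee_sub_one ht
  nlinarith [norm_nonneg (G t x)]

lemma norm_G_sub_le (t : ℝ) (x : ℕ) : ‖G t x - x‖ ≤ 2 * π * |t| * (x : ℝ) ^ 2 := by
  have : G t x - x = ∑ b ∈ Icc 1 x, (ee (b * t) - 1) := by
    simp [G, Finset.sum_sub_distrib]
  rw [this]
  refine (norm_sum_le _ _).trans ?_
  have h : ∀ b ∈ Icc 1 x, ‖ee (b * t) - 1‖ ≤ 2 * π * |t| * x := by
    intro b hb
    refine (norm_ee_sub_one_le _).trans ?_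
    rw [abs_mul, Nat.abs_cast]
    have : (b : ℝ) ≤ x := by exact_mod_cast (mem_Icc.1 hb).2
    have h0 : 0 ≤ 2 * π * |t| := by positivity
    nlinarith
  refine (Finset.sum_le_card_nsmul _ _ _ h).trans (le_of_eq ?_)
  simp; ring

/-- the weighted exponential sum -/
noncomputable def S (n : ℕ) (t : ℝ) : ℂ :=
  ∑ k ∈ Icc 1 n, ((Nat.divisors k).card : ℂ) * ee (k * t)

def W (n : ℕ) : ℕ := ∑ k ∈ Icc 1 n, (Nat.divisors k).card

lemma S_zero (n : ℕ) : S n 0 = W n := by simp [S, W, ee_zero]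

lemma sum_divisors_eq (F : ℕ → ℂ) (n : ℕ) :
    ∑ k ∈ Icc 1 n, ((Nat.divisors k).card : ℂ) * F k =
      ∑ p ∈ (Icc 1 n ×ˢ Icc 1 n).filter (fun p : ℕ × ℕ => p.1 * p.2 ≤ n), F (p.1 * p.2) := by
  symm
  rw [← Finset.sum_fiberwise_of_maps_to (t := Icc 1 n) (g := fun p : ℕ × ℕ => p.1 * p.2)]
  · refine Finset.sum_congr rfl fun k hk => ?_
    have hk' := mem_Icc.1 hk
    have : ((Icc 1 n ×ˢ Icc 1 n).filter (fun p : ℕ × ℕ => p.1 * p.2 ≤ n)).filter
        (fun p : ℕ × ℕ => p.1 * p.2 = k) = k.divisorsAntidiagonal := by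
      ext ⟨a, b⟩
      simp only [mem_filter, mem_product, mem_Icc, Nat.mem_divisorsAntidiagonal]
      constructor
      · rintro ⟨_, h⟩; exact ⟨h, by omega⟩
      · rintro ⟨h, h0⟩
        have ha : a ≠ 0 := by rintro rfl; simp at h; omega
        have hb : b ≠ 0 := by rintro rfl; simp at h; omega
        have h1 : a ≤ a * b := Nat.le_mul_of_pos_right _ (by omega)
        have h2 : b ≤ a * b := Nat.le_mul_of_pos_left _ (by omega)
        exact ⟨⟨⟨⟨by omega, by omega⟩, by omega, by omega⟩, by omega⟩, h⟩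
    rw [this, Finset.sum_congr rfl (g := fun _ => F k)]
    · rw [Finset.sum_const, nsmul_eq_mul, ← Nat.map_div_right_divisors, card_map]
    · intro p hp
      rw [(Nat.mem_divisorsAntidiagonal.1 hp).1]
  · intro p hp
    simp only [mem_filter, mem_product, mem_Icc] at hp ⊢
    exact ⟨Nat.mul_pos hp.1.1.1 hp.1.2.1, hp.2⟩

lemma hyperbola (F : ℕ → ℂ) (n : ℕ) :
    ∑ k ∈ Icc 1 n, ((Nat.divisors k).card : ℂ) * F k =
      ∑ a ∈ Icc 1 n.sqrt, (2 * ∑ b ∈ Icc 1 (n / a), F (a * b) - ∑ b ∈ Icc 1 n.sqrt, F (a * b)) := by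
  rw [sum_divisors_eq]
  set y := n.sqrt with hy
  set T := (Icc 1 n ×ˢ Icc 1 n).filter (fun p : ℕ × ℕ => p.1 * p.2 ≤ n) with hT
  have hyn : y ≤ n := Nat.sqrt_le_self n
  have hyy : y * y ≤ n := Nat.sqrt_le n
  have hlt : n < (y + 1) * (y + 1) := Nat.lt_succ_sqrt n
  have hu : T.filter (fun p => p.1 ≤ y) ∪ T.filter (fun p => p.2 ≤ y) = T := by
    ext ⟨a, b⟩
    simp only [mem_union, mem_filter]
    constructor
    · rintro (h | h) <;> exact h.1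
    · intro h
      by_cases ha : a ≤ y
      · exact Or.inl ⟨h, ha⟩
      · refine Or.inr ⟨h, ?_⟩
        by_contra hb
        have h2 : a * b ≤ n := (mem_filter.1 h).2
        have : (y + 1) * (y + 1) ≤ a * b := Nat.mul_le_mul (by omega) (by omega)
        omega
  have hi : T.filter (fun p => p.1 ≤ y) ∩ T.filter (fun p => p.2 ≤ y) = Icc 1 y ×ˢ Icc 1 y := by
    ext ⟨a, b⟩
    simp only [hT, mem_inter, mem_filter, mem_product, mem_Icc]
    constructor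
    · rintro ⟨⟨⟨⟨h1, h2⟩, _⟩, h3⟩, _, h4⟩; exact ⟨⟨h1.1, h3⟩, h2.1, h4⟩
    · rintro ⟨⟨h1, h2⟩, h3, h4⟩
      have : a * b ≤ y * y := Nat.mul_le_mul h2 h4
      exact ⟨⟨⟨⟨⟨h1, by omega⟩, h3, by omega⟩, by omega⟩, h2⟩,
        ⟨⟨⟨h1, by omega⟩, h3, by omega⟩, by omega⟩, h4⟩
  have h1 : ∑ p ∈ T.filter (fun p => p.1 ≤ y), F (p.1 * p.2) =
      ∑ a ∈ Icc 1 y, ∑ b ∈ Icc 1 (n / a), F (a * b) := by
    rw [Finset.sum_sigma']
    refine Finset.sum_nbij' (fun p => ⟨p.1, p.2⟩) (fun s => (s.1, s.2)) ?_ ?_ ?_ ?_ ?_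
    · rintro ⟨a, b⟩ h
      simp only [hT, mem_filter, mem_product, mem_Icc, mem_sigma] at h ⊢
      exact ⟨⟨h.1.1.1.1, h.2⟩, h.1.1.2.1,
        (Nat.le_div_iff_mul_le h.1.1.1.1).2 (by rw [mul_comm]; exact h.1.2)⟩
    · rintro ⟨a, b⟩ h
      simp only [hT, mem_filter, mem_product, mem_Icc, mem_sigma] at h ⊢
      have h3 := (Nat.le_div_iff_mul_le h.1.1).1 h.2.2
      have h4 : n / a ≤ n := Nat.div_le_self _ _
      exact ⟨⟨⟨⟨h.1.1, by omega⟩, h.2.1, by omega⟩, by rw [mul_comm]; exact h3⟩, h.1.2⟩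
    · intro p _; rfl
    · intro p _; rfl
    · intro p _; rfl
  have h2 : ∑ p ∈ T.filter (fun p => p.2 ≤ y), F (p.1 * p.2) =
      ∑ p ∈ T.filter (fun p => p.1 ≤ y), F (p.1 * p.2) := by
    refine Finset.sum_nbij' Prod.swap Prod.swap ?_ ?_ ?_ ?_ ?_
    · rintro ⟨a, b⟩ h
      simp only [hT, mem_filter, mem_product, Prod.swap] at h ⊢
      exact ⟨⟨⟨h.1.1.2, h.1.1.1⟩, by rw [mul_comm]; exact h.1.2⟩, h.2⟩
    · rintro ⟨a, b⟩ h
      simp only [hT, mem_filter, mem_product, Prod.swap] at h ⊢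
      exact ⟨⟨⟨h.1.1.2, h.1.1.1⟩, by rw [mul_comm]; exact h.1.2⟩, h.2⟩
    · intro p _; rfl
    · intro p _; rfl
    · intro p _; simp [mul_comm]
  have h3 := Finset.sum_union_inter (s₁ := T.filter (fun p => p.1 ≤ y))
    (s₂ := T.filter (fun p => p.2 ≤ y)) (f := fun p => F (p.1 * p.2))
  rw [hu, hi, h2, h1, Finset.sum_product] at h3
  rw [Finset.sum_sub_distrib, ← Finset.mul_sum]
  linear_combination h3

lemma S_eq (n : ℕ) (t : ℝ) :
    S n t = ∑ a ∈ Icc 1 n.sqrt, (2 * G (a * t) (n / a) - G (a * t) n.sqrt) := by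
  unfold S
  rw [hyperbola (fun k => ee (k * t))]
  refine Finset.sum_congr rfl fun a _ => ?_
  unfold G
  have : ∀ b : ℕ, ((a * b : ℕ) : ℝ) * t = b * (a * t) := by intro b; push_cast; ring
  simp only [this]

end Pool.Agent.P.MP_d5c55f_an
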