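import Pool.Agent.P.MP_d5c55f_an.Minor

/-! The terms with q dividing a. -/

open Finset Real

namespace Pool.Agent.P.MP_d5c55f_an

/-- the major part -/
noncomputable def U (n q : ℕ) (β : ℝ) : ℂ :=
  ∑ c ∈ Icc 1 (n.sqrt / q), g n (q * c) (((q * c : ℕ) : ℝ) * β)

lemma S_split (n : ℕ) (ρ : ℚ) (θ : ℝ) :
    S n θ = U n ρ.den (θ - ρ) +
      ∑ a ∈ (Icc 1 n.sqrt).filter (fun a => ¬ ρ.den ∣ a), g n a (a * θ) := by
  rw [S_eq, ← Finset.sum_filter_add_sum_filter_not (Icc 1 n.sqrt) (fun a => ρ.den ∣ a)]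
  congr 1
  unfold U
  have hq := ρ.den_pos
  symm
  refine Finset.sum_nbij' (fun c => ρ.den * c) (fun a => a / ρ.den) ?_ ?_ ?_ ?_ ?_
  · intro c hc
    simp only [mem_Icc, mem_filter] at hc ⊢
    refine ⟨⟨Nat.mul_pos hq hc.1, ?_⟩, dvd_mul_right _ _⟩
    rw [mul_comm]; exact (Nat.le_div_iff_mul_le hq).1 hc.2
  · intro a ha
    simp only [mem_Icc, mem_filter] at ha ⊢
    exact ⟨Nat.div_pos (Nat.le_of_dvd ha.1.1 ha.2) hq, Nat.div_le_div_right ha.1.2⟩
  · intro c _; exact Nat.mul_div_cancel_left c hq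
  · intro a ha; exact Nat.mul_div_cancel' (mem_filter.1 ha).2
  · intro c _
    have h1 : ((ρ.den * c : ℕ) : ℝ) * θ = ((ρ.num * c : ℤ) : ℝ) + ((ρ.den * c : ℕ) : ℝ) * (θ - ρ) := by
      have : (ρ : ℝ) * ρ.den = ρ.num := by exact_mod_cast Rat.mul_den_eq_num ρ
      push_cast
      linear_combination (c : ℝ) * this
    change g n (ρ.den * c) _ = g n (ρ.den * c) _
    rw [h1, g_add_int]

lemma sqrt_le_div {n a : ℕ} (ha : 1 ≤ a) (hay : a ≤ n.sqrt) : n.sqrt ≤ n / a :=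
  (Nat.le_div_iff_mul_le ha).2 ((Nat.mul_le_mul_left _ hay).trans (Nat.sqrt_le n))

lemma mem_major {n q c : ℕ} (hq : 1 ≤ q) (hc : c ∈ Icc 1 (n.sqrt / q)) :
    1 ≤ c ∧ 1 ≤ q * c ∧ q * c ≤ n.sqrt := by
  have := mem_Icc.1 hc
  exact ⟨this.1, Nat.mul_pos hq this.1, by rw [mul_comm]; exact (Nat.le_div_iff_mul_le hq).1 this.2⟩

lemma norm_g_le {n a : ℕ} (ha : 1 ≤ a) (hay : a ≤ n.sqrt) (t : ℝ) : ‖g n a t‖ ≤ 3 * (n / a : ℝ) := by
  have h1 := norm_G_le t (n / a)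
  have h2 := norm_G_le t n.sqrt
  have h3 : ((n / a : ℕ) : ℝ) ≤ n / a := Nat.cast_div_le
  have h4 : (n.sqrt : ℝ) ≤ (n / a : ℕ) := by exact_mod_cast sqrt_le_div ha hay
  unfold g
  refine (norm_sub_le _ _).trans ?_
  rw [norm_mul, Complex.norm_ofNat]
  linarith

lemma norm_g_sub_le {n a : ℕ} (ha : 1 ≤ a) (hay : a ≤ n.sqrt) (t : ℝ) :
    ‖g n a t - g n a 0‖ ≤ 6 * π * |t| * (n / a : ℝ) ^ 2 := by
  have h1 := norm_G_sub_le t (n / a)
  have h2 := norm_G_sub_le t n.sqrt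
  have h3 : ((n / a : ℕ) : ℝ) ≤ n / a := Nat.cast_div_le
  have h4 : (n.sqrt : ℝ) ≤ (n / a : ℕ) := by exact_mod_cast sqrt_le_div ha hay
  have h5 : g n a t - g n a 0 = 2 * (G t (n / a) - (n / a : ℕ)) - (G t n.sqrt - n.sqrt) := by
    unfold g; rw [G_zero, G_zero]; ring
  rw [h5]
  refine (norm_sub_le _ _).trans ?_
  rw [norm_mul, Complex.norm_ofNat]
  have h6 : ((n / a : ℕ) : ℝ) ^ 2 ≤ (n / a : ℝ) ^ 2 := by gcongr
  have h7 : (n.sqrt : ℝ) ^ 2 ≤ (n / a : ℝ) ^ 2 := by gcongr; exact h4.trans h3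
  have h8 : 0 ≤ 2 * π * |t| := by positivity
  nlinarith [mul_le_mul_of_nonneg_left h6 h8, mul_le_mul_of_nonneg_left h7 h8]

lemma norm_U_le (n : ℕ) {q : ℕ} (hq : 1 ≤ q) (β : ℝ) :
    ‖U n q β‖ ≤ 3 * (n / q : ℝ) * H n.sqrt := by
  refine (norm_sum_le _ _).trans ?_
  have hq0 : (0 : ℝ) < q := by exact_mod_cast hq
  calc ∑ c ∈ Icc 1 (n.sqrt / q), ‖g n (q * c) (((q * c : ℕ) : ℝ) * β)‖
      ≤ ∑ c ∈ Icc 1 (n.sqrt / q), 3 * (n / q : ℝ) * (c : ℝ)⁻¹ := by
        refine Finset.sum_le_sum fun c hc => ?_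
        obtain ⟨h1, h2, h3⟩ := mem_major hq hc
        refine (norm_g_le h2 h3 _).trans (le_of_eq ?_)
        push_cast; field_simp
    _ = 3 * (n / q : ℝ) * H (n.sqrt / q) := by rw [H, Finset.mul_sum]
    _ ≤ _ := by gcongr; exact H_mono (Nat.div_le_self _ _)

lemma norm_U_mul_le (n : ℕ) {q : ℕ} (hq : 1 ≤ q) {β : ℝ} (hβ : (n.sqrt : ℝ) * |β| ≤ 1 / 2) :
    ‖U n q β‖ * |β| ≤ 3 / (2 * q) * H n.sqrt := by
  have hq0 : (0 : ℝ) < q := by exact_mod_cast hq
  calc ‖U n q β‖ * |β|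
      ≤ (∑ c ∈ Icc 1 (n.sqrt / q), ‖g n (q * c) (((q * c : ℕ) : ℝ) * β)‖) * |β| := by
        gcongr; exact norm_sum_le _ _
    _ ≤ ∑ c ∈ Icc 1 (n.sqrt / q), 3 / (2 * q) * (c : ℝ)⁻¹ := by
        rw [Finset.sum_mul]
        refine Finset.sum_le_sum fun c hc => ?_
        obtain ⟨h1, h2, h3⟩ := mem_major hq hc
        have hc0 : (0 : ℝ) < c := by exact_mod_cast h1
        have h4 : |((q * c : ℕ) : ℝ) * β| ≤ 1 / 2 := by
          rw [abs_mul, Nat.abs_cast]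
          refine le_trans ?_ hβ
          gcongr
        have h5 := norm_g_mul_le n (q * c) h4
        rw [abs_mul, Nat.abs_cast] at h5
        rw [show 3 / (2 * (q : ℝ)) * (c : ℝ)⁻¹ = 3 / 2 / (q * c) by field_simp,
          le_div_iff₀ (by positivity)]
        push_cast at h5 ⊢
        linarith
    _ = 3 / (2 * q) * H (n.sqrt / q) := by rw [H, Finset.mul_sum]
    _ ≤ _ := by gcongr; exact H_mono (Nat.div_le_self _ _)

lemma norm_U_sub_le (n : ℕ) {q : ℕ} (hq : 1 ≤ q) (β : ℝ) :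
    ‖U n q β - U n q 0‖ ≤ 6 * π * |β| * ((n : ℝ) ^ 2 / q) * H n.sqrt := by
  have hq0 : (0 : ℝ) < q := by exact_mod_cast hq
  unfold U
  rw [← Finset.sum_sub_distrib]
  refine (norm_sum_le _ _).trans ?_
  calc ∑ c ∈ Icc 1 (n.sqrt / q),
        ‖g n (q * c) (((q * c : ℕ) : ℝ) * β) - g n (q * c) (((q * c : ℕ) : ℝ) * 0)‖
      ≤ ∑ c ∈ Icc 1 (n.sqrt / q), 6 * π * |β| * ((n : ℝ) ^ 2 / q) * (c : ℝ)⁻¹ := by
        refine Finset.sum_le_sum fun c hc => ?_
        obtain ⟨h1, h2, h3⟩ := mem_major hq hc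
        have hc0 : (0 : ℝ) < c := by exact_mod_cast h1
        rw [mul_zero]
        refine (norm_g_sub_le h2 h3 _).trans (le_of_eq ?_)
        rw [abs_mul, Nat.abs_cast]
        push_cast; field_simp
    _ = 6 * π * |β| * ((n : ℝ) ^ 2 / q) * H (n.sqrt / q) := by rw [H, Finset.mul_sum]
    _ ≤ _ := by gcongr; exact H_mono (Nat.div_le_self _ _)

/-- the value at `β = 0` -/
noncomputable def u0 (n q : ℕ) : ℝ :=
  ∑ c ∈ Icc 1 (n.sqrt / q), (2 * ((n / (q * c) : ℕ) : ℝ) - n.sqrt)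

lemma U_zero (n q : ℕ) : U n q 0 = (u0 n q : ℂ) := by
  simp [U, u0, g, G_zero]

lemma W_eq (n : ℕ) : (W n : ℝ) = u0 n 1 := by
  have h1 := S_split n 0 0
  rw [S_zero] at h1
  simp only [Rat.den_zero, one_dvd, not_true, filter_false, sum_empty, add_zero, Rat.cast_zero,
    sub_zero] at h1
  rw [U_zero] at h1
  exact_mod_cast h1

lemma cast_div_ge (n a : ℕ) (ha : 1 ≤ a) : (n : ℝ) / a - 1 ≤ ((n / a : ℕ) : ℝ) := by
  have ha0 : (0 : ℝ) < a := by exact_mod_cast ha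
  rw [sub_le_iff_le_add, div_le_iff₀ ha0]
  have := Nat.lt_mul_div_succ n ha
  have h2 : (n : ℝ) ≤ a * ((n / a : ℕ) + 1) := by exact_mod_cast this.le
  linarith

lemma u0_approx (n : ℕ) {q : ℕ} (hq : 1 ≤ q) :
    |u0 n q - (n / q : ℝ) * (2 * H (n.sqrt / q) - 1)| ≤ 5 * n.sqrt := by
  set y := n.sqrt with hy
  set Y := y / q with hY
  have hq0 : (0 : ℝ) < q := by exact_mod_cast hq
  have hq1 : (1 : ℝ) ≤ q := by exact_mod_cast hq
  have h1 : u0 n q = 2 * ∑ c ∈ Icc 1 Y, ((n / (q * c) : ℕ) : ℝ) - Y * y := by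
    simp [u0, Finset.sum_sub_distrib, Finset.mul_sum, ← hy, ← hY]
  have h2 : ∑ c ∈ Icc 1 Y, ((n / (q * c) : ℕ) : ℝ) ≤ (n / q : ℝ) * H Y := by
    rw [H, Finset.mul_sum]
    refine Finset.sum_le_sum fun c _ => Nat.cast_div_le.trans (le_of_eq ?_)
    push_cast; rw [div_mul_eq_div_div, div_eq_mul_inv]
  have h3 : (n / q : ℝ) * H Y - Y ≤ ∑ c ∈ Icc 1 Y, ((n / (q * c) : ℕ) : ℝ) := by
    rw [H, Finset.mul_sum, show (Y : ℝ) = ∑ c ∈ Icc 1 Y, (1 : ℝ) by simp, ← Finset.sum_sub_distrib]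
    refine Finset.sum_le_sum fun c hc => ?_
    refine le_trans (le_of_eq ?_) (cast_div_ge n (q * c) (Nat.mul_pos hq (mem_Icc.1 hc).1))
    push_cast; ring
  have h4 : (Y : ℝ) ≤ y / q := Nat.cast_div_le
  have h5 : (y : ℝ) / q - 1 ≤ Y := cast_div_ge y q hq
  have h6 : (y : ℝ) * y ≤ n := by exact_mod_cast Nat.sqrt_le n
  have h7 : (n : ℝ) ≤ y * y + 2 * y := by
    have := Nat.sqrt_le_add n
    rw [← hy] at this
    have h8 : (n : ℝ) ≤ y * y + y + y := by exact_mod_cast this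
    linarith
  have hy0 : (0 : ℝ) ≤ y := Nat.cast_nonneg _
  have h9 : (y : ℝ) / q ≤ y := div_le_self hy0 hq1
  have h10 : (Y : ℝ) * y ≤ n / q := by
    calc (Y : ℝ) * y ≤ y / q * y := by gcongr
      _ = y * y / q := by ring
      _ ≤ n / q := by gcongr
  have h11 : (n : ℝ) / q - 3 * y ≤ Y * y := by
    have : (n : ℝ) / q ≤ (y * y + 2 * y) / q := by gcongr
    have h12 : ((y : ℝ) * y + 2 * y) / q = y / q * y + 2 * (y / q) := by ring
    nlinarith
  rw [h1, abs_le]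
  constructor <;> nlinarith

lemma le_W (n : ℕ) : n ≤ W n := by
  unfold W
  calc n = ∑ _k ∈ Icc 1 n, 1 := by simp
    _ ≤ _ := Finset.sum_le_sum fun k hk =>
      card_pos.2 ⟨1, Nat.one_mem_divisors.2 (by have := (mem_Icc.1 hk).1; omega)⟩

lemma H_le_W (n : ℕ) : (n : ℝ) * H n.sqrt ≤ 2 * W n := by
  rw [W_eq, u0, H, Nat.div_one, Finset.mul_sum, Finset.mul_sum]
  refine Finset.sum_le_sum fun c hc => ?_
  have hc' := mem_Icc.1 hc
  rw [one_mul]
  have h1 : n.sqrt ≤ n / c := sqrt_le_div hc'.1 hc'.2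
  have h2 : (n.sqrt : ℝ) ≤ (n / c : ℕ) := by exact_mod_cast h1
  have h3 := cast_div_ge n c hc'.1
  have h4 : (1 : ℝ) ≤ (n / c : ℕ) := by exact_mod_cast (hc'.1.trans hc'.2).trans h1
  rw [← div_eq_mul_inv]
  linarith

lemma H_sub_approx {y q : ℕ} (hq : 1 ≤ q) (hqy : q ≤ y) :
    |H y - H (y / q) - Real.log q| ≤ 2 * q / y := by
  set Y := y / q with hY
  have hY1 : 1 ≤ Y := Nat.div_pos hqy hq
  have hYy : Y ≤ y := Nat.div_le_self _ _
  have hq0 : (0 : ℝ) < q := by exact_mod_cast hq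
  have hY0 : (0 : ℝ) < Y := by exact_mod_cast hY1
  have hY1' : (1 : ℝ) ≤ Y := by exact_mod_cast hY1
  have hy0 : (0 : ℝ) < y := by exact_mod_cast hq.trans hqy
  have h1 := strictMono_eulerMascheroniSeq.monotone hYy
  have h2 := strictAnti_eulerMascheroniSeq'.antitone hYy
  simp only [eulerMascheroniSeq, eulerMascheroniSeq', if_neg (by omega : ¬ Y = 0),
    if_neg (by omega : ¬ y = 0), ← H_eq] at h1 h2
  have h3 : (Y : ℝ) * q ≤ y := by exact_mod_cast Nat.div_mul_le_self y q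
  have h4 : (y : ℝ) ≤ q * (Y + 1) := by exact_mod_cast (Nat.lt_mul_div_succ y hq).le
  have h5 : Real.log (Y + 1) - Real.log Y ≤ 1 / Y := by
    rw [← Real.log_div (by positivity) hY0.ne']
    refine (Real.log_le_sub_one_of_pos (by positivity)).trans (le_of_eq ?_)
    field_simp; ring
  have h6 : Real.log y ≤ Real.log q + Real.log (Y + 1) := by
    rw [← Real.log_mul hq0.ne' (by positivity)]
    exact Real.log_le_log hy0 h4
  have h7 : Real.log Y + Real.log q ≤ Real.log (y + 1) := by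
    rw [← Real.log_mul hY0.ne' hq0.ne']
    exact Real.log_le_log (by positivity) (by linarith)
  have h8 : 1 / (Y : ℝ) ≤ 2 * q / y := by
    rw [div_le_div_iff₀ hY0 hy0]; nlinarith
  rw [abs_le]
  constructor <;> linarith

/-- the monotone main term -/
noncomputable def Phi (q y : ℕ) : ℝ := 1 - 2 * Real.log q / (2 * H y - 1)

lemma Phi_le_one {q y : ℕ} (hy : 1 ≤ y) : Phi q y ≤ 1 := by
  have h1 := one_le_H hy
  have h2 : 0 ≤ 2 * Real.log q / (2 * H y - 1) :=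
    div_nonneg (by have := Real.log_natCast_nonneg q; linarith) (by linarith)
  unfold Phi; linarith

lemma Phi_mono {q y y' : ℕ} (hy : 1 ≤ y) (h : y ≤ y') : Phi q y ≤ Phi q y' := by
  have h1 := one_le_H hy
  have h2 := H_mono h
  have h3 := Real.log_natCast_nonneg q
  unfold Phi
  have : 2 * Real.log q / (2 * H y' - 1) ≤ 2 * Real.log q / (2 * H y - 1) :=
    div_le_div_of_nonneg_left (by linarith) (by linarith) (by linarith)
  linarith

lemma neg_one_le_Phi {q y : ℕ} (hq : 1 ≤ q) (h : q ≤ y) : -1 ≤ Phi q y := by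
  have h1 := one_le_H (hq.trans h)
  have h2 := H_mono h
  have h3 : Real.log q ≤ H q := by
    rw [H_eq]
    refine le_trans (Real.log_le_log (by exact_mod_cast hq) ?_) (log_add_one_le_harmonic q)
    push_cast; linarith
  unfold Phi
  have : 2 * Real.log q / (2 * H y - 1) ≤ 2 := by
    rw [div_le_iff₀ (by linarith)]; linarith
  linarith

lemma main_approx {n q : ℕ} (hq : 1 ≤ q) (hqy : q ≤ n.sqrt) :
    |u0 n q / W n - Phi q n.sqrt / q| ≤ 14 / n.sqrt := by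
  set y := n.sqrt with hy
  have hy1 : 1 ≤ y := hq.trans hqy
  have hy0 : (0 : ℝ) < y := by exact_mod_cast hy1
  have hq0 : (0 : ℝ) < q := by exact_mod_cast hq
  have hq1 : (1 : ℝ) ≤ q := by exact_mod_cast hq
  have h6 : (y : ℝ) * y ≤ n := by exact_mod_cast Nat.sqrt_le n
  have hn0 : (0 : ℝ) < n := by nlinarith
  have hW : (n : ℝ) ≤ W n := by exact_mod_cast le_W n
  have hW0 : (0 : ℝ) < W n := by linarith
  have a1 := u0_approx n hq
  have a2 := u0_approx n le_rfl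
  rw [← W_eq, Nat.div_one, Nat.cast_one, div_one] at a2
  rw [← hy] at a1 a2
  have a3 := H_sub_approx hq hqy
  have hH := one_le_H hy1
  have hHY := one_le_H (Nat.div_pos hqy hq)
  have hHm : H (y / q) ≤ H y := H_mono (Nat.div_le_self _ _)
  set D := 2 * H y - 1 with hD
  set E := 2 * H (y / q) - 1 with hE
  have hD1 : 1 ≤ D := by linarith
  have hr0 : 0 ≤ E / D / q := by
    have : 0 ≤ E := by linarith
    positivity
  have hr1 : E / D / q ≤ 1 := by
    rw [div_le_one hq0, div_le_iff₀ (by linarith)]; nlinarith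
  have b1 : u0 n q / W n - E / D / q =
      ((u0 n q - n / q * E) - E / D / q * (W n - n * D)) / W n := by
    field_simp; ring
  have b2 : |u0 n q / W n - E / D / q| ≤ 10 / y := by
    rw [b1, abs_div, abs_of_pos hW0, div_le_div_iff₀ hW0 hy0]
    have : |(u0 n q - n / q * E) - E / D / q * (W n - n * D)| ≤ 10 * y := by
      refine (abs_sub _ _).trans ?_
      rw [abs_mul, abs_of_nonneg hr0]
      have := mul_le_mul hr1 a2 (abs_nonneg _) zero_le_one
      linarith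
    nlinarith
  have b3 : E / D / q - Phi q y / q = -2 * (H y - H (y / q) - Real.log q) / D / q := by
    unfold Phi; rw [← hD, hE]; field_simp; rw [hD]; ring
  have b4 : |E / D / q - Phi q y / q| ≤ 4 / y := by
    rw [b3, abs_div, abs_div, abs_mul, abs_of_pos hq0, abs_of_pos (by linarith : 0 < D),
      div_le_iff₀ hq0, div_le_iff₀ (by linarith)]
    have : 4 / (y : ℝ) * q = 2 * (2 * q / y) := by ring
    rw [this, abs_neg, abs_two]
    have h0 : 0 ≤ 2 * (q : ℝ) / y := by positivity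
    nlinarith
  have := abs_sub_le (u0 n q / W n) (E / D / q) (Phi q y / q)
  have h14 : (14 : ℝ) / y = 10 / y + 4 / y := by ring
  linarith

end Pool.Agent.P.MP_d5c55f_an
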