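import Pool.Agent.P.MP_d5c55f_an.Basic

/-! The terms with q not dividing a. -/

open Finset Real

namespace Pool.Agent.P.MP_d5c55f_an

/-- real harmonic number -/
noncomputable def H (n : ℕ) : ℝ := ∑ i ∈ Icc 1 n, (i : ℝ)⁻¹

lemma H_eq (n : ℕ) : H n = (harmonic n : ℝ) := by
  rw [harmonic_eq_sum_Icc]; simp [H]

lemma H_nonneg (n : ℕ) : 0 ≤ H n := Finset.sum_nonneg fun _ _ => by positivity

lemma H_mono {m n : ℕ} (h : m ≤ n) : H m ≤ H n :=
  Finset.sum_le_sum_of_subset_of_nonneg (Icc_subset_Icc_right h) fun _ _ _ => by positivity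

lemma one_le_H {n : ℕ} (h : 1 ≤ n) : 1 ≤ H n := by
  have := H_mono h
  simpa [H] using this

/-- the term of the hyperbola formula -/
noncomputable def g (n a : ℕ) (t : ℝ) : ℂ := 2 * G t (n / a) - G t n.sqrt

lemma norm_g_mul_le (n a : ℕ) {t : ℝ} (ht : |t| ≤ 1 / 2) : ‖g n a t‖ * |t| ≤ 3 / 2 := by
  have h1 := norm_G_mul_le ht (n / a)
  have h2 := norm_G_mul_le ht n.sqrt
  have h3 : ‖g n a t‖ ≤ 2 * ‖G t (n / a)‖ + ‖G t n.sqrt‖ := by
    unfold g
    refine (norm_sub_le _ _).trans (le_of_eq ?_)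
    rw [norm_mul]; simp
  nlinarith [abs_nonneg t]

lemma g_add_int (n a : ℕ) (z : ℤ) (t : ℝ) : g n a (z + t) = g n a t := by
  unfold g; rw [G_add_int, G_add_int]

/-- weight of a residue -/
noncomputable def wt (q : ℕ) (z : ZMod q) : ℝ :=
  if z = 0 then 0 else ((z.val : ℝ)⁻¹ + ((q : ℝ) - z.val)⁻¹)

lemma wt_nonneg (q : ℕ) [NeZero q] (z : ZMod q) : 0 ≤ wt q z := by
  unfold wt
  split_ifs
  · exact le_rfl
  · have : (z.val : ℝ) ≤ q := by exact_mod_cast (ZMod.val_lt z).le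
    have h2 : 0 ≤ (q : ℝ) - z.val := by linarith
    positivity

lemma sum_wt_le (q : ℕ) [NeZero q] : ∑ z : ZMod q, wt q z ≤ 2 * H q := by
  have h1 : ∑ z : ZMod q, wt q z =
      ∑ u ∈ range q, (if u = 0 then 0 else ((u : ℝ)⁻¹ + ((q : ℝ) - u)⁻¹)) := by
    refine Finset.sum_nbij' (fun z => z.val) (fun u => (u : ZMod q)) ?_ ?_ ?_ ?_ ?_
    · intro z _; exact mem_range.2 (ZMod.val_lt z)
    · intro u _; exact mem_univ _
    · intro z _; exact ZMod.natCast_zmod_val z
    · intro u hu; exact ZMod.val_natCast_of_lt (mem_range.1 hu)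
    · intro z _; simp [wt, ZMod.val_eq_zero]
  rw [h1]
  have h2 : ∑ u ∈ range q, (if u = 0 then 0 else ((u : ℝ)⁻¹ + ((q : ℝ) - u)⁻¹)) ≤
      ∑ u ∈ range q, (u : ℝ)⁻¹ + ∑ u ∈ range q, ((q : ℝ) - u)⁻¹ := by
    rw [← Finset.sum_add_distrib]
    refine Finset.sum_le_sum fun u hu => ?_
    split_ifs
    · have : (u : ℝ) ≤ q := by exact_mod_cast (mem_range.1 hu).le
      have h2 : 0 ≤ (q : ℝ) - u := by linarith
      positivity
    · exact le_rfl
  have h3 : ∑ u ∈ range q, (u : ℝ)⁻¹ ≤ H q := by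
    have : ∑ u ∈ range q, (u : ℝ)⁻¹ = ∑ u ∈ (range q).filter (fun u => u ≠ 0), (u : ℝ)⁻¹ := by
      rw [Finset.sum_filter]
      refine Finset.sum_congr rfl fun u _ => ?_
      split_ifs with h
      · rfl
      · simp at h; simp [h]
    rw [this]
    refine Finset.sum_le_sum_of_subset_of_nonneg ?_ fun _ _ _ => by positivity
    intro u hu
    simp only [mem_filter, mem_range, mem_Icc] at hu ⊢
    omega
  have h4 : ∑ u ∈ range q, ((q : ℝ) - u)⁻¹ = H q := by
    unfold H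
    refine Finset.sum_nbij' (fun u => q - u) (fun u => q - u) ?_ ?_ ?_ ?_ ?_
    · intro u hu; simp only [mem_range, mem_Icc] at hu ⊢; omega
    · intro u hu; simp only [mem_range, mem_Icc] at hu ⊢; omega
    · intro u hu; simp only [mem_range] at hu ⊢; omega
    · intro u hu; simp only [mem_Icc] at hu ⊢; omega
    · intro u hu
      rw [Nat.cast_sub (mem_range.1 hu).le]
  linarith

lemma sum_range_periodic (q : ℕ) [NeZero q] (F : ZMod q → ℝ) (c : ℕ) :
    ∑ a ∈ range (q * c), F (a : ZMod q) = c * ∑ z : ZMod q, F z := by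
  induction c with
  | zero => simp
  | succ c ih =>
    rw [mul_add, mul_one, Finset.sum_range_add, ih]
    have : ∑ x ∈ range q, F ((q * c + x : ℕ) : ZMod q) = ∑ z : ZMod q, F z := by
      refine Finset.sum_nbij' (fun u => (u : ZMod q)) (fun z => z.val) ?_ ?_ ?_ ?_ ?_
      · intro u _; exact mem_univ _
      · intro z _; exact mem_range.2 (ZMod.val_lt z)
      · intro u hu; exact ZMod.val_natCast_of_lt (mem_range.1 hu)
      · intro z _; exact ZMod.natCast_zmod_val z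
      · intro u _; simp
    rw [this]; push_cast; ring

lemma norm_g_le_wt (n a q : ℕ) [NeZero q] (r : ℤ) (θ : ℝ)
    (hβ : (a : ℝ) * |θ - r / q| ≤ 1 / (4 * q)) (hz : ((a : ZMod q) * (r : ZMod q)) ≠ 0) :
    ‖g n a (a * θ)‖ ≤ 2 * q * wt q ((a : ZMod q) * (r : ZMod q)) := by
  set z : ZMod q := (a : ZMod q) * (r : ZMod q) with hzdef
  have hq : (0 : ℝ) < q := by exact_mod_cast Nat.pos_of_ne_zero (NeZero.ne q)
  set β := θ - r / q with hβdef
  have hv1 : 1 ≤ z.val := Nat.pos_of_ne_zero (by rwa [Ne, ZMod.val_eq_zero])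
  have hv2 : z.val < q := ZMod.val_lt z
  have hv1' : (1 : ℝ) ≤ z.val := by exact_mod_cast hv1
  have hv2' : (z.val : ℝ) + 1 ≤ q := by exact_mod_cast hv2
  obtain ⟨m, hm⟩ : (q : ℤ) ∣ (a : ℤ) * r - (z.val : ℤ) := by
    rw [← ZMod.intCast_zmod_eq_zero_iff_dvd]
    push_cast
    rw [ZMod.natCast_zmod_val, hzdef, sub_self]
  have hm' : (a : ℝ) * r - z.val = q * m := by exact_mod_cast hm
  have hθ : (a : ℝ) * θ = m + (z.val / q + a * β) := by
    rw [hβdef]; field_simp; linarith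
  have hab : |(a : ℝ) * β| ≤ 1 / (4 * q) := by rwa [abs_mul, Nat.abs_cast]
  have hab' := abs_le.1 hab
  have hw : wt q z = (z.val : ℝ)⁻¹ + ((q : ℝ) - z.val)⁻¹ := by simp [wt, hz]
  have hi1 : 0 ≤ (z.val : ℝ)⁻¹ := by positivity
  have hi2 : 0 ≤ ((q : ℝ) - z.val)⁻¹ := inv_nonneg.2 (by linarith)
  have h4q : 1 / (4 * (q : ℝ)) = 1 / q / 4 := by field_simp
  have hq1 : (0 : ℝ) < 1 / q := by positivity
  -- the case of small residue, and of large residue
  have key : ∀ (s : ℝ) (u : ℝ) (m' : ℤ), 1 ≤ u → 2 * u ≤ q → |s| = u / q →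
      (a : ℝ) * θ = m' + (s + a * β) → ‖g n a (a * θ)‖ ≤ 2 * q * u⁻¹ := by
    intro s u m' hu1 hu2 hs he
    have hu0 : 0 < u := by linarith
    have huq : 1 / (q : ℝ) ≤ u / q := by gcongr
    have hlow : 3 / 4 * (u / q) ≤ |s + a * β| := by
      have := abs_sub_abs_le_abs_sub s (-(a * β))
      rw [abs_neg, sub_neg_eq_add] at this
      linarith
    have hs2 : u / q ≤ 1 / 2 := by rw [div_le_iff₀ hq]; linarith
    have hup : |s + a * β| ≤ 3 / 4 := by
      have := abs_add_le s (a * β)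
      have h5 : 1 / (q : ℝ) ≤ 1 / 2 := huq.trans hs2
      linarith
    by_cases hc : |s + a * β| ≤ 1 / 2
    · have h6 := norm_g_mul_le n a hc
      rw [he, g_add_int]
      have h7 : ‖g n a (s + a * β)‖ * (3 / 4 * (u / q)) ≤ 3 / 2 :=
        (mul_le_mul_of_nonneg_left hlow (norm_nonneg _)).trans h6
      rw [← div_eq_mul_inv, le_div_iff₀ hu0]
      have h8 : ‖g n a (s + a * β)‖ * (3 / 4 * (u / q)) * q = 3 / 4 * (‖g n a (s + a * β)‖ * u) := by
        field_simp
      nlinarith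
    · push Not at hc
      -- shift by one
      obtain ⟨e, he1, he2⟩ : ∃ e : ℤ, 1 / 4 ≤ |s + a * β - e| ∧ |s + a * β - e| ≤ 1 / 2 := by
        rcases le_total 0 (s + a * β) with h0 | h0
        · rw [abs_of_nonneg h0] at hc hup
          refine ⟨1, ?_, ?_⟩ <;> rw [abs_of_nonpos (by push_cast; linarith)] <;> push_cast <;> linarith
        · rw [abs_of_nonpos h0] at hc hup
          refine ⟨-1, ?_, ?_⟩ <;> rw [abs_of_nonneg (by push_cast; linarith)] <;> push_cast <;>
            linarith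
      have h6 := norm_g_mul_le n a he2
      have he3 : (a : ℝ) * θ = ((m' + e : ℤ) : ℝ) + (s + a * β - e) := by push_cast; linarith
      rw [he3, g_add_int]
      have h7 : ‖g n a (s + a * β - e)‖ ≤ 6 := by nlinarith [norm_nonneg (g n a (s + a * β - e))]
      -- here u / q is at least 3 / 8 so the bound is too weak: use the sharper lower bound
      have h9 : 3 / 8 ≤ |s + a * β - e| := by
        have h5 : 1 / (q : ℝ) ≤ 1 / 2 := huq.trans hs2
        have hup' : |s + a * β| ≤ 5 / 8 := by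
          have := abs_add_le s (a * β)
          linarith
        have h10 : (1 : ℝ) ≤ |(e : ℝ)| := by
          have : e ≠ 0 := by
            rintro rfl
            simp at he2; linarith
          have : 1 ≤ |e| := Int.one_le_abs this
          exact_mod_cast this
        have := abs_sub_abs_le_abs_sub (e : ℝ) (s + a * β)
        rw [abs_sub_comm] at this
        linarith
      have h11 : ‖g n a (s + a * β - e)‖ ≤ 4 := by nlinarith [norm_nonneg (g n a (s + a * β - e))]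
      rw [← div_eq_mul_inv, le_div_iff₀ hu0]
      nlinarith
  rw [hw]
  by_cases hc : 2 * (z.val : ℝ) ≤ q
  · have := key (z.val / q) z.val m hv1' hc (abs_of_nonneg (by positivity)) hθ
    nlinarith
  · have := key (z.val / q - 1) (q - z.val) (m + 1) (by linarith) (by linarith)
      (by
        rw [abs_of_nonpos (by rw [sub_nonpos, div_le_one hq]; linarith)]
        field_simp; ring)
      (by push_cast; linarith)
    nlinarith

/-- Bound for the terms with `q` not dividing `a`. -/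
lemma minor_bound (n : ℕ) (ρ : ℚ) (θ : ℝ)
    (hβ : (n.sqrt : ℝ) * |θ - ρ| ≤ 1 / (4 * ρ.den)) :
    ‖∑ a ∈ (Icc 1 n.sqrt).filter (fun a => ¬ ρ.den ∣ a), g n a (a * θ)‖ ≤
      4 * ((n.sqrt : ℝ) + ρ.den) * H ρ.den := by
  set q := ρ.den with hq
  have : NeZero q := ⟨ρ.den_nz⟩
  have hq0 : (0 : ℝ) < q := by exact_mod_cast ρ.den_pos
  have hρ : (ρ : ℝ) = (ρ.num : ℝ) / q := by rw [hq]; exact_mod_cast (Rat.num_div_den ρ).symm
  have hunit : IsUnit ((ρ.num : ℤ) : ZMod q) := by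
    rw [ZMod.coe_int_isUnit_iff_isCoprime, Int.isCoprime_iff_gcd_eq_one, Int.gcd_comm]
    exact ρ.reduced
  set y := n.sqrt with hy
  refine (norm_sum_le _ _).trans ?_
  have h1 : ∑ a ∈ (Icc 1 y).filter (fun a => ¬ q ∣ a), ‖g n a (a * θ)‖ ≤
      ∑ a ∈ (Icc 1 y).filter (fun a => ¬ q ∣ a), 2 * q * wt q ((a : ZMod q) * (ρ.num : ZMod q)) := by
    refine Finset.sum_le_sum fun a ha => ?_
    simp only [mem_filter, mem_Icc] at ha
    refine norm_g_le_wt n a q ρ.num θ ?_ ?_
    · rw [← hρ]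
      refine le_trans ?_ hβ
      have : (a : ℝ) ≤ y := by exact_mod_cast ha.1.2
      gcongr
    · rw [Ne, hunit.mul_left_eq_zero, ZMod.natCast_eq_zero_iff]
      exact ha.2
  refine h1.trans ?_
  have h2 : ∑ a ∈ (Icc 1 y).filter (fun a => ¬ q ∣ a),
      2 * q * wt q ((a : ZMod q) * (ρ.num : ZMod q)) ≤
      ∑ a ∈ range (q * (y / q + 1)), 2 * q * wt q ((a : ZMod q) * (ρ.num : ZMod q)) := by
    refine Finset.sum_le_sum_of_subset_of_nonneg ?_ fun a _ _ => ?_
    · intro a ha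
      simp only [mem_filter, mem_Icc, mem_range] at ha ⊢
      have := Nat.lt_mul_div_succ y ρ.den_pos
      rw [← hq] at this
      omega
    · have := wt_nonneg q ((a : ZMod q) * (ρ.num : ZMod q))
      positivity
  refine h2.trans ?_
  rw [sum_range_periodic q (fun z => 2 * q * wt q (z * (ρ.num : ZMod q))), ← Finset.mul_sum]
  have h3 : ∑ z : ZMod q, wt q (z * (ρ.num : ZMod q)) = ∑ z : ZMod q, wt q z :=
    (Equiv.sum_comp (hunit.unit.mulRight) (wt q))
  rw [h3]
  have h4 := sum_wt_le q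
  have h5 : ((y / q + 1 : ℕ) : ℝ) * q ≤ y + q := by
    have : (y / q + 1) * q ≤ y + q := by
      have := Nat.div_mul_le_self y q
      nlinarith
    exact_mod_cast this
  have h6 := H_nonneg q
  calc ((y / q + 1 : ℕ) : ℝ) * (2 * q * ∑ z : ZMod q, wt q z)
      ≤ ((y / q + 1 : ℕ) : ℝ) * (2 * q * (2 * H q)) := by gcongr
    _ = 4 * (((y / q + 1 : ℕ) : ℝ) * q) * H q := by ring
    _ ≤ 4 * ((y : ℝ) + q) * H q := by gcongr

end Pool.Agent.P.MP_d5c55f_an
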