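import Pool.Agent.P.MP_d5c55f_an.Major

/-! Oscillation of the normalised sums on dyadic blocks is summable. -/

open Finset Real

namespace Pool.Agent.P.MP_d5c55f_an

/-- normalised exponential sum -/
noncomputable def V (n : ℕ) (θ : ℝ) : ℂ := S n θ / (W n : ℂ)

noncomputable def gg (x : ℝ) : ℝ := x / (1 + x)

lemma gg_nonneg {x : ℝ} (hx : 0 ≤ x) : 0 ≤ gg x := by unfold gg; positivity

lemma gg_le_one {x : ℝ} (hx : 0 ≤ x) : gg x ≤ 1 := by
  unfold gg; rw [div_le_one (by linarith)]; linarith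

lemma gg_diff {x : ℝ} (hx : 0 ≤ x) : gg (2 * x) - gg x = x / ((1 + x) * (1 + 2 * x)) := by
  unfold gg; field_simp; ring

lemma gg_small {x : ℝ} (hx : 0 ≤ x) (h1 : x ≤ 1) : x ≤ 6 * (gg (2 * x) - gg x) := by
  rw [gg_diff hx, ← mul_div_assoc, le_div_iff₀ (by positivity)]
  nlinarith [mul_nonneg hx hx, mul_nonneg hx (mul_nonneg hx hx), mul_nonneg hx (sub_nonneg.2 h1),
    mul_nonneg (mul_nonneg hx hx) (sub_nonneg.2 h1)]

lemma gg_big {x : ℝ} (h1 : 1 ≤ x) : 1 / x ≤ 6 * (gg (2 * x) - gg x) := by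
  rw [gg_diff (by linarith), ← mul_div_assoc, div_le_div_iff₀ (by linarith) (by positivity)]
  nlinarith

lemma gg_mono {x : ℝ} (hx : 0 ≤ x) : gg x ≤ gg (2 * x) := by
  have := gg_diff hx
  have h2 : 0 ≤ x / ((1 + x) * (1 + 2 * x)) := by positivity
  linarith

noncomputable def Lam (q : ℕ) (β : ℝ) (i : ℕ) : ℝ :=
  1000 * gg (2 ^ i * |β|) + max (Phi q (Nat.sqrt (2 ^ i))) (-1)

lemma one_le_sqrt_pow (i : ℕ) : 1 ≤ Nat.sqrt (2 ^ i) :=
  Nat.sqrt_pos.2 (by positivity)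

lemma sqrt_pow_mono (i : ℕ) : Nat.sqrt (2 ^ i) ≤ Nat.sqrt (2 ^ (i + 1)) :=
  Nat.sqrt_le_sqrt (Nat.pow_le_pow_right two_pos (Nat.le_succ i))

lemma Lam_mono (q : ℕ) (β : ℝ) (i : ℕ) : Lam q β i ≤ Lam q β (i + 1) := by
  unfold Lam
  have h1 := gg_mono (x := 2 ^ i * |β|) (by positivity)
  have h2 := max_le_max_right (-1) (Phi_mono (q := q) (one_le_sqrt_pow i) (sqrt_pow_mono i))
  rw [pow_succ (2 : ℝ), show (2 : ℝ) ^ i * 2 * |β| = 2 * (2 ^ i * |β|) by ring]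
  linarith

lemma Lam_sub_le (q : ℕ) (β : ℝ) (i : ℕ) : Lam q β i - Lam q β 0 ≤ 1002 := by
  unfold Lam
  have h1 := gg_le_one (x := 2 ^ i * |β|) (by positivity)
  have h2 := gg_nonneg (x := 2 ^ 0 * |β|) (by positivity)
  have h3 : max (Phi q (Nat.sqrt (2 ^ i))) (-1) ≤ 1 :=
    max_le (Phi_le_one (one_le_sqrt_pow i)) (by norm_num)
  have h4 := le_max_right (Phi q (Nat.sqrt (2 ^ 0))) (-1)
  linarith

lemma inv_sqrt_le (i : ℕ) : 1 / (Nat.sqrt (2 ^ i) : ℝ) ≤ 2 * (3 / 4) ^ i := by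
  set y := Nat.sqrt (2 ^ i) with hy
  have hy1 : (1 : ℝ) ≤ y := by exact_mod_cast one_le_sqrt_pow i
  have h1 : (2 : ℝ) ^ i ≤ (y + 1) * (y + 1) := by
    exact_mod_cast (Nat.lt_succ_sqrt (2 ^ i)).le
  have h2 : ((4 / 3 : ℝ) ^ i) ^ 2 ≤ (2 * y) ^ 2 := by
    calc ((4 / 3 : ℝ) ^ i) ^ 2 = (16 / 9) ^ i := by rw [← pow_mul, mul_comm, pow_mul]; norm_num
      _ ≤ 2 ^ i := by gcongr; norm_num
      _ ≤ (2 * y) ^ 2 := by nlinarith
  have h3 : (4 / 3 : ℝ) ^ i ≤ 2 * y := by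
    exact (pow_le_pow_iff_left₀ (by positivity) (by positivity) two_ne_zero).1 h2
  have h4 : (4 / 3 : ℝ) ^ i * (3 / 4) ^ i = 1 := by rw [← mul_pow]; norm_num
  rw [div_le_iff₀ (by linarith)]
  have h5 : (0 : ℝ) ≤ (3 / 4) ^ i := by positivity
  nlinarith

lemma H_four_le (i : ℕ) : H (4 * Nat.sqrt (2 ^ (i + 1))) ≤ i + 4 := by
  have h1 : 4 * Nat.sqrt (2 ^ (i + 1)) ≤ 2 ^ (i + 3) := by
    have := Nat.sqrt_le_self (2 ^ (i + 1))
    calc 4 * Nat.sqrt (2 ^ (i + 1)) ≤ 4 * 2 ^ (i + 1) := by omega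
      _ = 2 ^ (i + 3) := by ring
  refine (H_mono h1).trans ?_
  rw [H_eq]
  refine (harmonic_le_one_add_log _).trans ?_
  push_cast
  rw [Real.log_pow]
  have : Real.log 2 ≤ 1 := by have := Real.log_two_lt_d9; linarith
  push_cast
  nlinarith

lemma block_bound (θ : ℝ) (i : ℕ) (ρ : ℚ) (hq : ρ.den ≤ 4 * Nat.sqrt (2 ^ (i + 1)))
    (hβ : |θ - ρ| ≤ 1 / ((((4 * Nat.sqrt (2 ^ (i + 1)) : ℕ) : ℝ) + 1) * ρ.den))
    {m n : ℕ} (hm : m ∈ Icc (2 ^ i) (2 ^ (i + 1))) (hn : n ∈ Icc (2 ^ i) (2 ^ (i + 1))) :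
    ‖V n θ - V m θ‖ ≤ 200 * ((i + 4) * (3 / 4) ^ i) +
      if ρ.den ≤ Nat.sqrt (2 ^ i) then
        (Lam ρ.den (θ - ρ) (i + 1) - Lam ρ.den (θ - ρ) i) / ρ.den else 0 := by
  set q := ρ.den with hqdef
  set β := θ - ρ with hβdef
  set y0 := Nat.sqrt (2 ^ i) with hy0
  set y1 := Nat.sqrt (2 ^ (i + 1)) with hy1
  set N : ℝ := 2 ^ i with hN
  have hq1 : 1 ≤ q := ρ.den_pos
  have hq0 : (0 : ℝ) < q := by exact_mod_cast hq1
  have hq1' : (1 : ℝ) ≤ q := by exact_mod_cast hq1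
  have hy01 : 1 ≤ y0 := one_le_sqrt_pow i
  have hy0p : (0 : ℝ) < y0 := by exact_mod_cast hy01
  have hy01' : (y0 : ℝ) ≤ y1 := by exact_mod_cast sqrt_pow_mono i
  have hN0 : 0 < N := by positivity
  have hy1N : (y1 : ℝ) * y1 ≤ 2 * N := by
    have : (y1 : ℝ) * y1 ≤ ((2 ^ (i + 1) : ℕ) : ℝ) := by exact_mod_cast Nat.sqrt_le (2 ^ (i + 1))
    push_cast at this; rw [pow_succ] at this; linarith
  have hβ1 : (y1 : ℝ) * |β| ≤ 1 / (4 * q) := by
    calc (y1 : ℝ) * |β| ≤ y1 * (1 / ((((4 * y1 : ℕ) : ℝ) + 1) * q)) := by gcongr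
      _ ≤ 1 / (4 * q) := by
        rw [mul_one_div, div_le_div_iff₀ (by positivity) (by positivity)]
        push_cast; nlinarith
  -- facts for a single point of the block
  have key : ∀ n ∈ Icc (2 ^ i) (2 ^ (i + 1)),
      ‖V n θ - U n q β / W n‖ ≤ 40 * (i + 4) / y0 ∧ ‖U n q β / W n‖ ≤ 6 / q ∧
      ‖U n q β / W n‖ * (N * |β|) ≤ 3 / q ∧
      (q ≤ y0 → ‖U n q β / W n - ((Phi q n.sqrt / q : ℝ) : ℂ)‖ ≤ 76 * (N * |β|) / q + 14 / y0 ∧
        Phi q y0 ≤ Phi q n.sqrt ∧ Phi q n.sqrt ≤ Phi q y1) := by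
    intro n hn
    obtain ⟨h1, h2⟩ := mem_Icc.1 hn
    have hy : y0 ≤ n.sqrt := Nat.sqrt_le_sqrt h1
    have hy' : n.sqrt ≤ y1 := Nat.sqrt_le_sqrt h2
    have hyr : (y0 : ℝ) ≤ n.sqrt := by exact_mod_cast hy
    have hyr' : (n.sqrt : ℝ) ≤ y1 := by exact_mod_cast hy'
    have hn1 : N ≤ n := by rw [hN]; exact_mod_cast h1
    have hn2 : (n : ℝ) ≤ 2 * N := by
      have : (n : ℝ) ≤ ((2 ^ (i + 1) : ℕ) : ℝ) := by exact_mod_cast h2
      push_cast at this; rw [pow_succ] at this; linarith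
    have hW : (n : ℝ) ≤ W n := by exact_mod_cast le_W n
    have hW0 : (0 : ℝ) < W n := by linarith
    have hHW := H_le_W n
    have hH0 := H_nonneg n.sqrt
    have hβ2 : (n.sqrt : ℝ) * |β| ≤ 1 / (4 * q) := le_trans (by gcongr) hβ1
    have hnorm : ∀ z : ℂ, ‖z / (W n : ℂ)‖ = ‖z‖ / W n := by intro z; simp
    refine ⟨?_, ?_, ?_, fun hqy => ⟨?_, Phi_mono hy01 hy, Phi_mono (hy01.trans hy) hy'⟩⟩
    · rw [V, ← sub_div, hnorm, S_split n ρ θ, add_sub_cancel_left, div_le_div_iff₀ hW0 hy0p]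
      have h3 := minor_bound n ρ θ hβ2
      have h4 : H q ≤ i + 4 := (H_mono hq).trans (H_four_le i)
      have h5 : (q : ℝ) ≤ 4 * y1 := by exact_mod_cast hq
      have h6 : 4 * ((n.sqrt : ℝ) + q) * H q ≤ 20 * y1 * (i + 4) := by
        have := H_nonneg q
        calc 4 * ((n.sqrt : ℝ) + q) * H q ≤ 4 * ((y1 : ℝ) + 4 * y1) * (i + 4) := by gcongr
          _ = _ := by ring
      have h7 : (y1 : ℝ) * y0 ≤ 2 * W n := by nlinarith
      have h8 : (0 : ℝ) ≤ i + 4 := by positivity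
      calc _ ≤ 20 * (y1 : ℝ) * (i + 4) * y0 := by gcongr; exact h3.trans h6
        _ = 20 * (i + 4) * (y1 * y0) := by ring
        _ ≤ 20 * (i + 4) * (2 * W n) := by gcongr
        _ = _ := by ring
    · rw [hnorm, div_le_iff₀ hW0]
      refine (norm_U_le n hq1 β).trans ?_
      calc 3 * (n / q : ℝ) * H n.sqrt = 3 / q * (n * H n.sqrt) := by ring
        _ ≤ 3 / q * (2 * W n) := by gcongr
        _ = _ := by ring
    · have h3 := norm_U_mul_le n hq1 (β := β) (hβ2.trans (by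
        rw [div_le_div_iff₀ (by positivity) (by norm_num)]; linarith))
      rw [hnorm, div_mul_eq_mul_div, div_le_iff₀ hW0]
      calc ‖U n q β‖ * (N * |β|) = ‖U n q β‖ * |β| * N := by ring
        _ ≤ 3 / (2 * q) * H n.sqrt * n := by gcongr
        _ = 3 / (2 * q) * (n * H n.sqrt) := by ring
        _ ≤ 3 / (2 * q) * (2 * W n) := by gcongr
        _ = _ := by field_simp
    · have h3 := main_approx hq1 (hqy.trans hy)
      have h4 : ‖U n q β / W n - U n q 0 / W n‖ ≤ 76 * (N * |β|) / q := by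
        rw [← sub_div, hnorm, div_le_iff₀ hW0]
        refine (norm_U_sub_le n hq1 β).trans ?_
        have hpi : π ≤ 3.15 := pi_lt_d2.le
        calc 6 * π * |β| * ((n : ℝ) ^ 2 / q) * H n.sqrt
            = 6 * π * |β| * (n / q) * (n * H n.sqrt) := by ring
          _ ≤ 6 * 3.15 * |β| * (2 * N / q) * (2 * W n) := by gcongr
          _ = 75.6 * (N * |β|) / q * W n := by ring
          _ ≤ _ := by gcongr; norm_num
      have h5 : ‖U n q 0 / W n - ((Phi q n.sqrt / q : ℝ) : ℂ)‖ ≤ 14 / y0 := by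
        rw [U_zero, show (u0 n q : ℂ) / (W n : ℂ) - ((Phi q n.sqrt / q : ℝ) : ℂ) =
          ((u0 n q / W n - Phi q n.sqrt / q : ℝ) : ℂ) by push_cast; ring, Complex.norm_real,
          Real.norm_eq_abs]
        exact h3.trans (by gcongr)
      exact (norm_sub_le_norm_sub_add_norm_sub _ _ _).trans (add_le_add h4 h5)
  obtain ⟨a1, a2, a3, a4⟩ := key n hn
  obtain ⟨b1, b2, b3, b4⟩ := key m hm
  have tri : ‖V n θ - V m θ‖ ≤ 80 * (i + 4) / y0 + ‖U n q β / W n - U m q β / W m‖ := by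
    have e : V n θ - V m θ = (V n θ - U n q β / W n) - (V m θ - U m q β / W m) +
        (U n q β / W n - U m q β / W m) := by ring
    rw [e]
    refine (norm_add_le _ _).trans (add_le_add_left ((norm_sub_le _ _).trans ?_) _)
    have : 80 * ((i : ℝ) + 4) / y0 = 40 * (i + 4) / y0 + 40 * (i + 4) / y0 := by ring
    linarith
  have herr : 80 * ((i : ℝ) + 4) / y0 + 28 / y0 ≤ 200 * ((i + 4) * (3 / 4) ^ i) := by
    have h1 := inv_sqrt_le i
    rw [← hy0] at h1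
    have h2 : 80 * ((i : ℝ) + 4) / y0 + 28 / y0 = (80 * (i + 4) + 28) * (1 / y0) := by ring
    have h3 : (0 : ℝ) ≤ i := Nat.cast_nonneg _
    have h4 : (0 : ℝ) ≤ (3 / 4) ^ i := by positivity
    rw [h2]
    calc (80 * ((i : ℝ) + 4) + 28) * (1 / y0) ≤ (100 * (i + 4)) * (2 * (3 / 4) ^ i) := by
          gcongr; linarith
      _ = _ := by ring
  have h28 : (0 : ℝ) ≤ 28 / y0 := by positivity
  split_ifs with hqy
  · obtain ⟨a5, a6, a7⟩ := a4 hqy
    obtain ⟨b5, b6, b7⟩ := b4 hqy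
    have hL : Lam q β (i + 1) - Lam q β i =
        1000 * (gg (2 * (N * |β|)) - gg (N * |β|)) + (Phi q y1 - Phi q y0) := by
      unfold Lam
      rw [max_eq_left (neg_one_le_Phi hq1 hqy),
        max_eq_left (neg_one_le_Phi hq1 (hqy.trans (sqrt_pow_mono i))), pow_succ (2 : ℝ), ← hN,
        show N * 2 * |β| = 2 * (N * |β|) by ring]
      ring
    set x := N * |β| with hx
    have hx0 : 0 ≤ x := by positivity
    have hg := gg_mono hx0
    suffices h : ‖U n q β / W n - U m q β / W m‖ ≤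
        28 / y0 + (Lam q β (i + 1) - Lam q β i) / q by linarith
    rw [hL]
    rcases le_total x 1 with hx1 | hx1
    · have h1 := gg_small hx0 hx1
      have e : U n q β / W n - U m q β / W m =
          (U n q β / W n - ((Phi q n.sqrt / q : ℝ) : ℂ)) -
          (U m q β / W m - ((Phi q m.sqrt / q : ℝ) : ℂ)) +
          (((Phi q n.sqrt - Phi q m.sqrt) / q : ℝ) : ℂ) := by push_cast; ring
      have h2 : ‖(((Phi q n.sqrt - Phi q m.sqrt) / q : ℝ) : ℂ)‖ ≤ (Phi q y1 - Phi q y0) / q := by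
        rw [Complex.norm_real, Real.norm_eq_abs, abs_div, abs_of_pos hq0]
        gcongr
        rw [abs_le]; constructor <;> linarith
      rw [e]
      refine (norm_add_le _ _).trans ?_
      have h3 := (norm_sub_le _ _).trans (add_le_add a5 b5)
      have h4 : 76 * x / q + 76 * x / q ≤ 1000 * (gg (2 * x) - gg x) / q := by
        rw [← add_div]; gcongr; linarith
      have h5 : (28 : ℝ) / y0 = 14 / y0 + 14 / y0 := by ring
      rw [add_div]
      linarith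
    · have h1 := gg_big hx1
      have hxp : 0 < x := by linarith
      have h2 : ‖U n q β / W n - U m q β / W m‖ ≤ 6 * (1 / x) / q := by
        refine (norm_sub_le _ _).trans ?_
        rw [← le_div_iff₀ hxp] at a3 b3
        have : 6 * (1 / x) / q = 3 / q / x + 3 / q / x := by ring
        linarith
      have h3 : 6 * (1 / x) / q ≤
          (1000 * (gg (2 * x) - gg x) + (Phi q y1 - Phi q y0)) / q := by
        gcongr; linarith
      linarith
  · have h1 : (y0 : ℝ) ≤ q := by exact_mod_cast (not_le.1 hqy).le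
    have h2 : (6 : ℝ) / q ≤ 6 / y0 := by gcongr
    have h3 := norm_sub_le (U n q β / W n) (U m q β / W m)
    have h4 : (28 : ℝ) / y0 = 6 / y0 + 6 / y0 + 16 / y0 := by ring
    have h5 : (0 : ℝ) ≤ 16 / y0 := by positivity
    linarith

lemma rat_sep {a b : ℚ} (h : a ≠ b) : 1 / ((a.den : ℝ) * b.den) ≤ |(a : ℝ) - b| := by
  have ha : (0 : ℝ) < a.den := by exact_mod_cast a.den_pos
  have hb : (0 : ℝ) < b.den := by exact_mod_cast b.den_pos
  have h1 : (a : ℝ) * a.den = a.num := by exact_mod_cast Rat.mul_den_eq_num a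
  have h2 : (b : ℝ) * b.den = b.num := by exact_mod_cast Rat.mul_den_eq_num b
  have h3 : a.num * b.den - b.num * a.den ≠ 0 := fun h0 =>
    h (Rat.eq_iff_mul_eq_mul.2 (sub_eq_zero.1 h0))
  have h4 : (1 : ℝ) ≤ |((a.num * b.den - b.num * a.den : ℤ) : ℝ)| := by
    exact_mod_cast Int.one_le_abs h3
  have h5 : ((a.num * b.den - b.num * a.den : ℤ) : ℝ) = ((a : ℝ) - b) * (a.den * b.den) := by
    push_cast; rw [← h1, ← h2]; ring
  rw [h5, abs_mul, abs_of_pos (mul_pos ha hb)] at h4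
  rwa [div_le_iff₀ (mul_pos ha hb)]

lemma sum_inv_den_le (θ : ℝ) (F : Finset ℚ)
    (hF : ∀ ρ ∈ F, |θ - ρ| ≤ 1 / (4 * (ρ.den : ℝ) ^ 2)) : ∑ ρ ∈ F, 1 / (ρ.den : ℝ) ≤ 2 := by
  have aux : ∀ a ∈ F, ∀ b ∈ F, a ≠ b → a.den ≤ b.den → 2 * a.den ≤ b.den := by
    intro a ha b hb hab hle
    have ha0 : (0 : ℝ) < a.den := by exact_mod_cast a.den_pos
    have hle' : (a.den : ℝ) ≤ b.den := by exact_mod_cast hle
    have h1 := rat_sep hab
    have h2 : |(a : ℝ) - b| ≤ 1 / (4 * (a.den : ℝ) ^ 2) + 1 / (4 * (a.den : ℝ) ^ 2) := by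
      have h3 := abs_sub_le (a : ℝ) θ b
      rw [abs_sub_comm (a : ℝ) θ] at h3
      have h4 : 1 / (4 * (b.den : ℝ) ^ 2) ≤ 1 / (4 * (a.den : ℝ) ^ 2) := by gcongr
      linarith [hF a ha, hF b hb]
    have h5 : 1 / (4 * (a.den : ℝ) ^ 2) + 1 / (4 * (a.den : ℝ) ^ 2) = 1 / (a.den * (2 * a.den)) := by
      field_simp; ring
    have h6 := h1.trans (h5 ▸ h2)
    rw [div_le_div_iff₀ (mul_pos ha0 (ha0.trans_le hle')) (by positivity), one_mul, one_mul] at h6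
    have h7 : (2 * a.den : ℝ) ≤ b.den := le_of_mul_le_mul_left h6 ha0
    exact_mod_cast h7
  have hinj : Set.InjOn (fun ρ : ℚ => Nat.log 2 ρ.den) F := by
    intro a ha b hb hab
    by_contra hne
    simp only at hab
    have l1 := Nat.pow_log_le_self 2 a.den_nz
    have l2 := Nat.pow_log_le_self 2 b.den_nz
    have l3 := Nat.lt_pow_succ_log_self one_lt_two a.den
    have l4 := Nat.lt_pow_succ_log_self one_lt_two b.den
    rw [hab] at l1 l3
    rw [Nat.succ_eq_add_one, pow_succ] at l3 l4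
    rcases le_total a.den b.den with h | h
    · have := aux a ha b hb hne h; omega
    · have := aux b hb a ha (Ne.symm hne) h; omega
  calc ∑ ρ ∈ F, 1 / (ρ.den : ℝ) ≤ ∑ ρ ∈ F, (1 / 2 : ℝ) ^ Nat.log 2 ρ.den := by
        refine Finset.sum_le_sum fun ρ _ => ?_
        rw [one_div_pow]
        have : ((2 ^ Nat.log 2 ρ.den : ℕ) : ℝ) ≤ ρ.den := by
          exact_mod_cast Nat.pow_log_le_self 2 ρ.den_nz
        push_cast at this
        gcongr
    _ = ∑ m ∈ F.image (fun ρ : ℚ => Nat.log 2 ρ.den), (1 / 2 : ℝ) ^ m := by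
        rw [Finset.sum_image hinj]
    _ ≤ ∑' m : ℕ, (1 / 2 : ℝ) ^ m :=
        summable_geometric_two.sum_le_tsum _ fun _ _ => by positivity
    _ = 2 := tsum_geometric_two

lemma sum_err (I : ℕ) :
    ∑ i ∈ range I, ((i : ℝ) + 4) * (3 / 4) ^ i = 28 - (4 * I + 28) * (3 / 4) ^ I := by
  induction I with
  | zero => norm_num
  | succ I ih => rw [Finset.sum_range_succ, ih]; push_cast; ring

theorem exists_osc (θ : ℝ) : ∃ ω : ℕ → ℝ, (∀ I, ∑ i ∈ range I, ω i ≤ 8000) ∧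
    ∀ i, ∀ m ∈ Icc (2 ^ i) (2 ^ (i + 1)), ∀ n ∈ Icc (2 ^ i) (2 ^ (i + 1)),
      ‖V n θ - V m θ‖ ≤ ω i := by
  classical
  choose ρ hρ using fun i : ℕ => Real.exists_rat_abs_sub_le_and_den_le θ
    (n := 4 * Nat.sqrt (2 ^ (i + 1))) (by have := one_le_sqrt_pow (i + 1); omega)
  refine ⟨_, fun I => ?_, fun i m hm n hn => block_bound θ i (ρ i) (hρ i).2 (hρ i).1 hm hn⟩
  rw [Finset.sum_add_distrib, ← Finset.mul_sum, sum_err]
  set F := ((range I).filter fun i => (ρ i).den ≤ Nat.sqrt (2 ^ i)).image ρ with hF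
  have h1 : ∑ r ∈ F, 1 / (r.den : ℝ) ≤ 2 := by
    refine sum_inv_den_le θ F fun r hr => ?_
    obtain ⟨i, hi, rfl⟩ := mem_image.1 hr
    refine (hρ i).1.trans ?_
    have h2 : ((ρ i).den : ℝ) ≤ Nat.sqrt (2 ^ (i + 1)) := by
      exact_mod_cast (mem_filter.1 hi).2.trans (sqrt_pow_mono i)
    have h3 : (0 : ℝ) < (ρ i).den := by exact_mod_cast (ρ i).den_pos
    rw [div_le_div_iff₀ (by positivity) (by positivity)]
    push_cast; nlinarith
  have hnn : ∀ (r : ℚ) i, 0 ≤ (Lam r.den (θ - r) (i + 1) - Lam r.den (θ - r) i) / r.den :=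
    fun r i => div_nonneg (sub_nonneg.2 (Lam_mono _ _ _)) (Nat.cast_nonneg _)
  have h2 : ∑ i ∈ range I, (if (ρ i).den ≤ Nat.sqrt (2 ^ i) then
      (Lam (ρ i).den (θ - ρ i) (i + 1) - Lam (ρ i).den (θ - ρ i) i) / (ρ i).den else 0) ≤
      ∑ i ∈ range I, ∑ r ∈ F, (Lam r.den (θ - r) (i + 1) - Lam r.den (θ - r) i) / r.den := by
    refine Finset.sum_le_sum fun i hi => ?_
    split_ifs with h
    · exact Finset.single_le_sum (f := fun r : ℚ =>
        (Lam r.den (θ - r) (i + 1) - Lam r.den (θ - r) i) / r.den) (fun r _ => hnn r i)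
        (mem_image.2 ⟨i, mem_filter.2 ⟨hi, h⟩, rfl⟩)
    · exact Finset.sum_nonneg fun r _ => hnn r i
  have h3 : ∑ i ∈ range I, ∑ r ∈ F, (Lam r.den (θ - r) (i + 1) - Lam r.den (θ - r) i) / r.den ≤
      1002 * ∑ r ∈ F, 1 / (r.den : ℝ) := by
    rw [Finset.sum_comm, Finset.mul_sum]
    refine Finset.sum_le_sum fun r _ => ?_
    rw [← Finset.sum_div, Finset.sum_range_sub, mul_one_div]
    gcongr
    exact Lam_sub_le _ _ _
  have h4 : (0 : ℝ) ≤ (4 * I + 28) * (3 / 4) ^ I := by positivity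
  linarith

end Pool.Agent.P.MP_d5c55f_an
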