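import Pool.Agent.P.MP_d5c55f_an.Var

/-! From the multiplier bound to sequences, by a finite Fourier transform. -/

open Finset Real

namespace Pool.Agent.P.MP_d5c55f_an

lemma conj_ee (t : ℝ) : (starRingEnd ℂ) (ee t) = ee (-t) := by
  unfold ee
  rw [← Complex.exp_conj, map_mul, Complex.conj_I, Complex.conj_ofReal]
  congr 1; push_cast; ring

lemma orth {P : ℕ} {s : ℝ} (hs : s = 1 ∨ s = -1) {t u : ℕ} (ht : t < P) (hu : u < P) :
    ∑ m ∈ range P, ee (s * (m * t / P)) * ee (-(s * (m * u / P))) = if t = u then (P : ℂ) else 0 := by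
  split_ifs with h
  · subst h
    simp [← ee_add, ee_zero]
  · have hP : (0 : ℝ) < P := by exact_mod_cast (Nat.zero_le t).trans_lt ht
    set x : ℝ := s * (((t : ℝ) - u) / P) with hx
    have h1 : ∀ m : ℕ, ee (s * (m * t / P)) * ee (-(s * (m * u / P))) = ee x ^ m := by
      intro m
      rw [← ee_add, show s * (m * t / P) + -(s * (m * u / P)) = m * x by rw [hx]; ring]
      unfold ee
      rw [← Complex.exp_nat_mul]
      congr 1; push_cast; ring
    have h2 : ee x ^ P = 1 := by
      have : ee x ^ P = ee (P * x) := by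
        unfold ee
        rw [← Complex.exp_nat_mul]
        congr 1; push_cast; ring
      rw [this]
      rcases hs with rfl | rfl
      · rw [show (P : ℝ) * x = (((t : ℤ) - u : ℤ) : ℝ) by rw [hx]; push_cast; field_simp, ee_int]
      · rw [show (P : ℝ) * x = (((u : ℤ) - t : ℤ) : ℝ) by rw [hx]; push_cast; field_simp; ring,
          ee_int]
    have h3 : ee x ≠ 1 := by
      intro h3
      unfold ee at h3
      obtain ⟨z, hz⟩ := Complex.exp_eq_one_iff.1 h3
      have h4 : x = z := by
        have h5 : ((2 * π * x : ℝ) : ℂ) = ((2 * π * z : ℝ) : ℂ) := by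
          apply mul_left_cancel₀ Complex.I_ne_zero
          rw [hz]; push_cast; ring
        have h6 := Complex.ofReal_injective h5
        exact mul_left_cancel₀ (by positivity) h6
      have h5 : |x| < 1 := by
        have ht' : (t : ℝ) < P := by exact_mod_cast ht
        have hu' : (u : ℝ) < P := by exact_mod_cast hu
        have hs' : |s| = 1 := by rcases hs with rfl | rfl <;> simp
        rw [hx, abs_mul, hs', one_mul, abs_div, abs_of_pos hP, div_lt_one hP, abs_lt]
        constructor <;> linarith [Nat.cast_nonneg (α := ℝ) t, Nat.cast_nonneg (α := ℝ) u]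
      rw [h4] at h5
      have h6 : z = 0 := by
        have : |z| < 1 := by exact_mod_cast h5
        exact Int.abs_lt_one_iff.1 this
      rw [h6, Int.cast_zero, hx] at h4
      have hs0 : s ≠ 0 := by rcases hs with rfl | rfl <;> norm_num
      have h7 := (mul_eq_zero.1 h4).resolve_left hs0
      rw [div_eq_zero_iff, or_iff_left hP.ne', sub_eq_zero] at h7
      exact h (by exact_mod_cast h7)
    simp only [h1]
    rw [geom_sum_eq h3, h2, sub_self, zero_div]

lemma parseval {P : ℕ} {s : ℝ} (hs : s = 1 ∨ s = -1) (c : ℕ → ℂ) :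
    ∑ m ∈ range P, ‖∑ t ∈ range P, c t * ee (s * (m * t / P))‖ ^ 2 =
      P * ∑ t ∈ range P, ‖c t‖ ^ 2 := by
  apply Complex.ofReal_injective
  push_cast
  simp only [← Complex.mul_conj', map_sum, map_mul, conj_ee, Finset.sum_mul_sum]
  rw [Finset.sum_comm, Finset.mul_sum]
  refine Finset.sum_congr rfl fun t ht => ?_
  rw [Finset.sum_comm]
  have : ∀ u ∈ range P, ∑ m ∈ range P, c t * ee (s * (m * t / P)) *
      ((starRingEnd ℂ) (c u) * ee (-(s * (m * u / P)))) =
      if t = u then (P : ℂ) * (c t * (starRingEnd ℂ) (c t)) else 0 := by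
    intro u hu
    have h := orth hs (mem_range.1 ht) (mem_range.1 hu)
    have e : ∀ m : ℕ, c t * ee (s * (m * t / P)) * ((starRingEnd ℂ) (c u) *
        ee (-(s * (m * u / P)))) = c t * (starRingEnd ℂ) (c u) *
          (ee (s * (m * t / P)) * ee (-(s * (m * u / P)))) := fun m => by ring
    simp only [e]
    rw [← Finset.mul_sum, h]
    split_ifs with h'
    · subst h'; ring
    · simp
  rw [Finset.sum_congr rfl this, Finset.sum_ite_eq, if_pos ht]

lemma inversion {P : ℕ} (a : ℕ → ℂ) {m : ℕ} (hm : m < P) :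
    ∑ t ∈ range P, (∑ l ∈ range P, a l * ee (-1 * (t * l / P))) * ee (1 * (m * t / P)) =
      P * a m := by
  simp only [Finset.sum_mul]
  rw [Finset.sum_comm]
  have : ∀ l ∈ range P, ∑ t ∈ range P, a l * ee (-1 * (t * l / P)) * ee (1 * (m * t / P)) =
      if m = l then (P : ℂ) * a m else 0 := by
    intro l hl
    have h := orth (s := 1) (Or.inl rfl) hm (mem_range.1 hl)
    have e : ∀ t : ℕ, a l * ee (-1 * (t * l / P)) * ee (1 * (m * t / P)) =
        a l * (ee (1 * (t * m / P)) * ee (-(1 * (t * l / P)))) := fun t => by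
      rw [mul_comm (m : ℝ) t, show -1 * ((t : ℝ) * l / P) = -(1 * (t * l / P)) by ring]; ring
    simp only [e]
    rw [← Finset.mul_sum, h]
    split_ifs with h'
    · subst h'; ring
    · simp
  rw [Finset.sum_congr rfl this, Finset.sum_ite_eq, if_pos (mem_range.2 hm)]

/-- weighted average of a sequence started at `m` -/
noncomputable def B (n : ℕ) (a : ℕ → ℂ) (m : ℕ) : ℂ :=
  (∑ k ∈ Icc 1 n, ((Nat.divisors k).card : ℂ) * a (m + k)) / (W n : ℂ)

lemma B_eq {P : ℕ} (a : ℕ → ℂ) {n m : ℕ} (h : m + n < P) :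
    P * B n a m = ∑ t ∈ range P, (∑ l ∈ range P, a l * ee (-1 * (t * l / P))) * V n (t / P) *
      ee (1 * (m * t / P)) := by
  unfold B V S
  rw [← mul_div_assoc, Finset.mul_sum]
  have : ∀ k ∈ Icc 1 n, (P : ℂ) * (((Nat.divisors k).card : ℂ) * a (m + k)) =
      ∑ t ∈ range P, (∑ l ∈ range P, a l * ee (-1 * (t * l / P))) *
        (((Nat.divisors k).card : ℂ) * ee (k * (t / P))) * ee (1 * (m * t / P)) := by
    intro k hk
    rw [mul_left_comm, ← inversion a (m := m + k) (by have := (mem_Icc.1 hk).2; omega),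
      Finset.mul_sum]
    refine Finset.sum_congr rfl fun t _ => ?_
    rw [show 1 * (((m + k : ℕ) : ℝ) * t / P) = k * (t / P) + 1 * (m * t / P) by push_cast; ring,
      ee_add]
    ring
  rw [Finset.sum_congr rfl this, Finset.sum_comm, Finset.sum_div]
  refine Finset.sum_congr rfl fun t _ => ?_
  rw [← Finset.sum_mul, ← Finset.mul_sum]
  ring

theorem seq_bound (n : ℕ → ℕ) (hn : Monotone n) (h1 : ∀ j, 1 ≤ n j) (J M : ℕ) (hM : n J ≤ M)
    (a : ℕ → ℂ) :
    ∑ j ∈ range J, ∑ m ∈ range M, ‖B (n (j + 1)) a m - B (n j) a m‖ ^ 2 ≤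
      160000 * ∑ m ∈ range (2 * M), ‖a m‖ ^ 2 := by
  set P := 2 * M with hP
  have hP0 : (0 : ℝ) < P := by
    have := h1 J
    exact_mod_cast (by omega : 0 < P)
  set c : ℕ → ℂ := fun t => ∑ l ∈ range P, a l * ee (-1 * (t * l / P)) with hc
  have hpar : ∑ t ∈ range P, ‖c t‖ ^ 2 = P * ∑ m ∈ range P, ‖a m‖ ^ 2 :=
    parseval (Or.inr rfl) a
  have step : ∀ j ∈ range J, (P : ℝ) * ∑ m ∈ range M, ‖B (n (j + 1)) a m - B (n j) a m‖ ^ 2 ≤
      ∑ t ∈ range P, ‖c t‖ ^ 2 * ‖V (n (j + 1)) (t / P) - V (n j) (t / P)‖ ^ 2 := by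
    intro j hj
    have hj1 : n (j + 1) ≤ M := (hn (mem_range.1 hj)).trans hM
    have hj2 : n j ≤ M := (hn (Nat.le_succ j)).trans hj1
    have e1 := parseval (P := P) (Or.inl rfl)
      (fun t => c t * (V (n (j + 1)) (t / P) - V (n j) (t / P)))
    apply le_of_mul_le_mul_left _ hP0
    simp only [norm_mul, mul_pow] at e1
    rw [← e1, ← mul_assoc, Finset.mul_sum]
    refine le_trans (le_of_eq ?_) (Finset.sum_le_sum_of_subset_of_nonneg
      (range_subset_range.2 (by omega : M ≤ P)) fun _ _ _ => by positivity)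
    refine Finset.sum_congr rfl fun m hm => ?_
    have hm' := mem_range.1 hm
    have e2 : ∑ t ∈ range P, c t * (V (n (j + 1)) (t / P) - V (n j) (t / P)) *
        ee (1 * (m * t / P)) = P * (B (n (j + 1)) a m - B (n j) a m) := by
      rw [mul_sub, B_eq a (by omega), B_eq a (by omega), ← Finset.sum_sub_distrib]
      refine Finset.sum_congr rfl fun t _ => ?_
      simp only [hc]; ring
    rw [e2, norm_mul, Complex.norm_natCast]; ring
  apply le_of_mul_le_mul_left _ hP0
  rw [Finset.mul_sum]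
  refine (Finset.sum_le_sum step).trans ?_
  rw [Finset.sum_comm, mul_left_comm, ← hpar, Finset.mul_sum]
  refine Finset.sum_le_sum fun t _ => ?_
  rw [← Finset.mul_sum, mul_comm]
  exact mul_le_mul_of_nonneg_right (var_bound _ n hn h1 J) (by positivity)

end Pool.Agent.P.MP_d5c55f_an
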