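import Pool.Agent.P.MP_d5c55f_an.Osc

/-! Uniform bound for the quadratic variation of the multiplier. -/

open Finset Real

namespace Pool.Agent.P.MP_d5c55f_an

lemma W_eq_sum_div (n : ℕ) : W n = ∑ a ∈ Ioc 0 n, n / a := by
  rw [← ArithmeticFunction.sum_Ioc_sigma0_eq_sum_div, W]
  refine Finset.sum_congr rfl fun k _ => ?_
  rw [ArithmeticFunction.sigma_zero_apply]

lemma W_two_mul_le (n : ℕ) : W (2 * n) ≤ 4 * W n := by
  have h0 := le_W n
  have h1 : W (2 * n) = ∑ a ∈ Ioc 0 n, 2 * n / a + ∑ a ∈ Ioc n (2 * n), 2 * n / a := by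
    rw [W_eq_sum_div, Finset.sum_Ioc_consecutive _ (Nat.zero_le _) (by omega)]
  have h2 : ∑ a ∈ Ioc 0 n, 2 * n / a ≤ ∑ a ∈ Ioc 0 n, (2 * (n / a) + 1) := by
    refine Finset.sum_le_sum fun a ha => ?_
    have ha0 := (mem_Ioc.1 ha).1
    have := Nat.lt_mul_div_succ n ha0
    apply Nat.le_of_lt_succ
    rw [Nat.div_lt_iff_lt_mul ha0]
    nlinarith
  have h3 : ∑ a ∈ Ioc n (2 * n), 2 * n / a ≤ ∑ _a ∈ Ioc n (2 * n), 1 := by
    refine Finset.sum_le_sum fun a ha => ?_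
    have ha0 := mem_Ioc.1 ha
    apply Nat.le_of_lt_succ
    rw [Nat.div_lt_iff_lt_mul (by omega)]
    omega
  rw [Finset.sum_add_distrib, ← Finset.mul_sum, ← W_eq_sum_div] at h2
  simp only [sum_const, Nat.card_Ioc, smul_eq_mul, mul_one] at h2 h3
  omega

lemma W_mono {m n : ℕ} (h : m ≤ n) : W m ≤ W n :=
  Finset.sum_le_sum_of_subset (Icc_subset_Icc_right h)

lemma norm_S_sub_le {m n : ℕ} (h : m ≤ n) (θ : ℝ) : ‖S n θ - S m θ‖ ≤ (W n : ℝ) - W m := by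
  induction n, h using Nat.le_induction with
  | base => simp
  | succ n hn ih =>
    have h1 : S (n + 1) θ = S n θ + ((Nat.divisors (n + 1)).card : ℂ) * ee ((n + 1 : ℕ) * θ) := by
      unfold S; rw [Finset.sum_Icc_succ_top (by omega)]
    have h2 : W (n + 1) = W n + (Nat.divisors (n + 1)).card := by
      unfold W; rw [Finset.sum_Icc_succ_top (by omega)]
    rw [h1, h2, add_sub_right_comm]
    refine (norm_add_le _ _).trans ?_
    rw [norm_mul, norm_ee, Complex.norm_natCast]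
    push_cast
    linarith

lemma norm_S_le (n : ℕ) (θ : ℝ) : ‖S n θ‖ ≤ W n := by
  simpa [S, W] using norm_S_sub_le (Nat.zero_le n) θ

lemma norm_V_le (n : ℕ) (θ : ℝ) : ‖V n θ‖ ≤ 1 := by
  rw [V, norm_div, Complex.norm_natCast]
  exact div_le_one_of_le₀ (norm_S_le n θ) (Nat.cast_nonneg _)

lemma norm_V_sub_le {m n : ℕ} (hm : 1 ≤ m) (h : m ≤ n) (θ : ℝ) :
    ‖V n θ - V m θ‖ ≤ 2 * ((W n : ℝ) - W m) / W n := by
  have h1 : (0 : ℝ) < W m := by exact_mod_cast hm.trans (le_W m)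
  have h2 : (W m : ℝ) ≤ W n := by exact_mod_cast W_mono h
  have h3 : (0 : ℝ) < W n := h1.trans_le h2
  have h4 : (W m : ℂ) ≠ 0 := by exact_mod_cast h1.ne'
  have h5 : (W n : ℂ) ≠ 0 := by exact_mod_cast h3.ne'
  have e : V n θ - V m θ = ((S n θ - S m θ) - V m θ * (((W n : ℝ) - W m : ℝ) : ℂ)) / W n := by
    unfold V; push_cast; field_simp; ring
  rw [e, norm_div, Complex.norm_natCast]
  gcongr
  refine (norm_sub_le _ _).trans ?_
  rw [norm_mul, Complex.norm_real, Real.norm_eq_abs, abs_of_nonneg (by linarith)]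
  have := norm_S_sub_le h θ
  have h6 := norm_V_le m θ
  nlinarith

theorem var_bound (θ : ℝ) (n : ℕ → ℕ) (hn : Monotone n) (h1 : ∀ j, 1 ≤ n j) (J : ℕ) :
    ∑ j ∈ range J, ‖V (n (j + 1)) θ - V (n j) θ‖ ^ 2 ≤ 160000 := by
  obtain ⟨ω, hω, hb⟩ := exists_osc θ
  have hω0 : ∀ i, 0 ≤ ω i := fun i => by
    have hm : 2 ^ i ∈ Icc (2 ^ i) (2 ^ (i + 1)) :=
      mem_Icc.2 ⟨le_rfl, Nat.pow_le_pow_right two_pos (Nat.le_succ i)⟩
    exact (norm_nonneg _).trans (hb i _ hm _ hm)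
  set Ω : ℕ → ℝ := fun I => ∑ i ∈ range I, ω i with hΩ
  have hΩs : ∀ i, Ω (i + 1) = Ω i + ω i := fun i => Finset.sum_range_succ _ _
  have hΩm : Monotone Ω := monotone_nat_of_le_succ fun i => by rw [hΩs]; linarith [hω0 i]
  have hΩ0 : ∀ i, 0 ≤ Ω i := fun i => Finset.sum_nonneg fun i _ => hω0 i
  have hmem : ∀ m, 1 ≤ m → m ∈ Icc (2 ^ Nat.log 2 m) (2 ^ (Nat.log 2 m + 1)) := fun m hm =>
    mem_Icc.2 ⟨Nat.pow_log_le_self 2 (by omega), (Nat.lt_pow_succ_log_self one_lt_two m).le⟩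
  have hWp : ∀ i, (0 : ℝ) < W (2 ^ i) := fun i => by
    exact_mod_cast (Nat.two_pow_pos i).trans_le (le_W _)
  have hrat : ∀ i m, m ∈ Icc (2 ^ i) (2 ^ (i + 1)) → (W m : ℝ) / W (2 ^ i) ≤ 4 := fun i m hm => by
    rw [div_le_iff₀ (hWp i)]
    have : W m ≤ 4 * W (2 ^ i) :=
      (W_mono (mem_Icc.1 hm).2).trans (by rw [pow_succ']; exact W_two_mul_le (2 ^ i))
    exact_mod_cast this
  have hchain : ∀ i m, m ∈ Icc (2 ^ i) (2 ^ (i + 1)) → ∀ i', i ≤ i' →
      ∀ n ∈ Icc (2 ^ i') (2 ^ (i' + 1)), ‖V n θ - V m θ‖ ≤ Ω (i' + 1) - Ω i := by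
    intro i m hm i' hi
    induction i', hi using Nat.le_induction with
    | base => intro n hn; rw [hΩs]; simpa using hb i m hm n hn
    | succ i' hi ih =>
      intro n hn
      have e1 := ih (2 ^ (i' + 1))
        (mem_Icc.2 ⟨Nat.pow_le_pow_right two_pos (Nat.le_succ _), le_rfl⟩)
      have e2 := hb (i' + 1) (2 ^ (i' + 1))
        (mem_Icc.2 ⟨le_rfl, Nat.pow_le_pow_right two_pos (Nat.le_succ _)⟩) n hn
      have e3 := norm_sub_le_norm_sub_add_norm_sub (V n θ) (V (2 ^ (i' + 1)) θ) (V m θ)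
      rw [hΩs (i' + 1)]
      linarith
  set Ψ : ℕ → ℝ := fun m => 10 * Ω (Nat.log 2 m) + 2 * Ω (Nat.log 2 m + 1) +
    2 * (ω (Nat.log 2 m) * (W m / W (2 ^ Nat.log 2 m))) with hΨ
  have key : ∀ m n, 1 ≤ m → m ≤ n → ‖V n θ - V m θ‖ ^ 2 ≤ Ψ n - Ψ m := by
    intro m n hm hmn
    have hm' := hmem m hm
    have hn' := hmem n (hm.trans hmn)
    have hnn := norm_nonneg (V n θ - V m θ)
    simp only [hΨ]
    rcases (Nat.log_mono_right (b := 2) hmn).eq_or_lt with h | h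
    · rw [← h] at hn' ⊢
      set i := Nat.log 2 m
      have e1 := hb i m hm' n hn'
      have e2 := norm_V_sub_le hm hmn θ
      have e3 : (W (2 ^ i) : ℝ) ≤ W n := by exact_mod_cast W_mono (mem_Icc.1 hn').1
      have e4 : (W m : ℝ) ≤ W n := by exact_mod_cast W_mono hmn
      have e5 : 2 * ((W n : ℝ) - W m) / W n ≤ 2 * ((W n : ℝ) - W m) / W (2 ^ i) :=
        div_le_div_of_nonneg_left (by linarith) (hWp i) e3
      have e6 : ‖V n θ - V m θ‖ ^ 2 ≤ ω i * (2 * ((W n : ℝ) - W m) / W (2 ^ i)) := by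
        rw [sq]; exact mul_le_mul e1 (e2.trans e5) hnn (hω0 i)
      refine e6.trans (le_of_eq ?_)
      ring
    · set i := Nat.log 2 m
      set i' := Nat.log 2 n
      have e1 := hchain i m hm' i' h.le n hn'
      have e2 : ‖V n θ - V m θ‖ ≤ 2 :=
        (norm_sub_le _ _).trans (by linarith [norm_V_le n θ, norm_V_le m θ])
      have e3 := hΩm (show i + 1 ≤ i' from h)
      have e4 := hΩs i
      have e5 : ω i * (W m / W (2 ^ i)) ≤ ω i * 4 :=
        mul_le_mul_of_nonneg_left (hrat i m hm') (hω0 i)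
      have e6 : 0 ≤ ω i' * (W n / W (2 ^ i')) := mul_nonneg (hω0 i') (by positivity)
      nlinarith
  calc ∑ j ∈ range J, ‖V (n (j + 1)) θ - V (n j) θ‖ ^ 2
      ≤ ∑ j ∈ range J, (Ψ (n (j + 1)) - Ψ (n j)) :=
        Finset.sum_le_sum fun j _ => key _ _ (h1 j) (hn (Nat.le_succ j))
    _ = Ψ (n J) - Ψ (n 0) := Finset.sum_range_sub (fun j => Ψ (n j)) J
    _ ≤ 160000 := by
      simp only [hΨ]
      set i := Nat.log 2 (n J)
      set i' := Nat.log 2 (n 0)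
      have e1 := hω (i + 1)
      have e2 := hΩs i
      have e3 := hΩ0 i
      have e4 := hΩ0 i'
      have e5 := hΩ0 (i' + 1)
      have e6 : 0 ≤ ω i' * (W (n 0) / W (2 ^ i')) := mul_nonneg (hω0 i') (by positivity)
      have e7 : ω i * (W (n J) / W (2 ^ i)) ≤ ω i * 4 :=
        mul_le_mul_of_nonneg_left (hrat i _ (hmem _ (h1 J))) (hω0 i)
      have e8 := hω0 i
      change Ω (i + 1) ≤ 8000 at e1
      linarith

end Pool.Agent.P.MP_d5c55f_an
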